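import Pool.Agent.Helper22.TL.Spec

set_option autoImplicit false

namespace TL

open Set

theorem dim_thm (hdim : S_DIM1) : S_DIM := by
  intro d 𝒯 hL
  have hd := hdim d 𝒯 hL
  have fin_le : ∀ S : Submodule ℝ (E d), Module.finrank ℝ S ≤ d := by
    intro S
    have := Submodule.finrank_le S
    simpa using this
  have aff : ∀ (n : ℕ) (F : Fin n → Set (E d)) (c : Set (E d) → E d), (∀ i, Fc 𝒯 (F i)) →
      StrictMono F → (∀ i, c (F i) ∈ ri (F i)) → AffineIndependent ℝ (fun i => c (F i)) := by
    intro n
    induction n with
    | zero =>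
      intro F c _ _ _
      exact affineIndependent_of_subsingleton ℝ _
    | succ n ih =>
      intro F c hF hmono hc
      have h0 := ih (fun j => F j.castSucc) c (fun j => hF _)
        (fun i j hij => hmono (by simpa using hij)) (fun j => hc _)
      let f : {y : Fin (n + 1) // y ≠ Fin.last n} ↪ Fin n :=
        ⟨fun x => x.1.castPred x.2, by
          intro x y hxy
          apply Subtype.ext
          exact (Fin.castPred_inj).1 hxy⟩
      have h1 : AffineIndependent ℝ (fun x : {y : Fin (n + 1) // y ≠ Fin.last n} => c (F x)) := by
        have h5 := h0.comp_embedding f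
        have h6 : (fun x : {y : Fin (n + 1) // y ≠ Fin.last n} => c (F x)) =
            (fun i => c (F (Fin.castSucc i))) ∘ f := by
          funext x
          show c (F x) = c (F (Fin.castSucc ((x : Fin (n + 1)).castPred x.2)))
          rw [Fin.castSucc_castPred]
        rw [h6]
        exact h5
      refine h1.affineIndependent_of_notMem_span ?_
      rcases Nat.eq_zero_or_pos n with hn | hn
      · have : {x : Fin (n + 1) | x ≠ Fin.last n} = ∅ := by
          ext x
          constructor
          · intro hx
            exfalso
            apply hx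
            apply Fin.ext
            have := x.2
            simp only [Fin.val_last]
            omega
          · intro hx
            exact absurd hx (notMem_empty x)
        rw [this, image_empty, AffineSubspace.span_empty]
        exact AffineSubspace.notMem_bot ℝ (E d) _
      · obtain ⟨m, rfl⟩ : ∃ m, n = m + 1 := ⟨n - 1, by omega⟩
        have h2 := (hd (F (Fin.castSucc (Fin.last m))) (F (Fin.last (m + 1))) (hF _) (hF _)
          (hmono (Fin.castSucc_lt_last _))).1 _ (hc (Fin.last (m + 1)))
        intro h3
        apply h2
        refine affineSpan_mono ℝ ?_ h3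
        rintro _ ⟨j, hj, rfl⟩
        have hj' : j ≤ Fin.castSucc (Fin.last m) := by
          have : (j : ℕ) ≠ m + 1 := fun h => hj (Fin.ext h)
          have h4 := j.2
          rw [Fin.le_def]
          simp only [Fin.val_castSucc, Fin.val_last]
          omega
        exact hmono.monotone hj' (hc j).1
  have rank : ∀ (Φ : Flg 𝒯) (i : Fin (d + 1)),
      Module.finrank ℝ (vectorSpan ℝ (Φ.F i)) = i := by
    intro Φ
    set g : Fin (d + 1) → ℕ := fun i => Module.finrank ℝ (vectorSpan ℝ (Φ.F i)) with hg
    have hgm : StrictMono g := fun i j hij => (hd _ _ (Φ.fc i) (Φ.fc j) (Φ.mono hij)).2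
    have hgd : ∀ i, g i ≤ d := fun i => fin_le _
    have low : ∀ (k : ℕ) (hk : k < d + 1), k ≤ g ⟨k, hk⟩ := by
      intro k
      induction k with
      | zero => intro _; exact Nat.zero_le _
      | succ k ih =>
        intro hk
        have h1 := ih (by omega)
        have h2 : g ⟨k, by omega⟩ < g ⟨k + 1, hk⟩ := hgm (by rw [Fin.lt_def]; simp)
        omega
    have high : ∀ (k : ℕ) (i : Fin (d + 1)), (i : ℕ) + k = d → g i + k ≤ d := by
      intro k
      induction k with
      | zero => intro i _; exact hgd i
      | succ k ih =>
        intro i hi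
        have h1 := ih ⟨i + 1, by omega⟩ (by simp only; omega)
        have h2 : g i < g ⟨i + 1, by omega⟩ := hgm (by rw [Fin.lt_def]; simp)
        omega
    intro i
    have h1 := low i i.2
    have h2 := high (d - i) i (by have := i.2; omega)
    have h3 : g ⟨i, i.2⟩ = g i := rfl
    have := i.2
    show g i = i
    omega
  refine ⟨?_, rank, ?_⟩
  · intro n F c hF hmono hc
    have h := aff n F c hF hmono hc
    refine ⟨h, ?_⟩
    have h2 := h.card_le_finrank_succ
    have h3 := fin_le (vectorSpan ℝ (range fun i => c (F i)))
    rw [Fintype.card_fin] at h2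
    omega
  · intro Φ
    obtain ⟨hne, T, hT, hFT⟩ := Φ.fc (Fin.last d)
    by_contra hcon
    have hne' : Φ.F (Fin.last d) ≠ T := by
      intro h; rw [h] at hcon; exact hcon hT
    have hsub : Φ.F (Fin.last d) ⊂ T := lt_of_le_of_ne hFT.1.subset hne'
    have hTF : Fc 𝒯 T := by
      refine ⟨hne.mono hFT.1.subset, T, hT, IsExtreme.refl ℝ T, ?_⟩
      obtain ⟨⟨s, rfl⟩, -⟩ := hL.poly T hT
      exact convex_convexHull ℝ _
    have h1 := (hd _ _ (Φ.fc (Fin.last d)) hTF hsub).2
    rw [rank Φ (Fin.last d)] at h1
    have h2 := fin_le (vectorSpan ℝ T)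
    simp only [Fin.val_last] at h1
    omega

end TL
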