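import Pool.Agent.Helper22.TL.Spec

set_option autoImplicit false

namespace TL

open Set

/-- a point of the span of `F - z` is a feasible direction at a point `z` of `ri F` -/
theorem feas {d : ℕ} {F : Set (E d)} (hF : Convex ℝ F) {z : E d} (hz : z ∈ ri F) (v : E d)
    (hv : v ∈ vectorSpan ℝ F) : ∃ ε > (0 : ℝ), z + ε • v ∈ F := by
  have shrink : ∀ (v : E d) (ε δ : ℝ), 0 < ε → 0 ≤ δ → δ ≤ ε → z + ε • v ∈ F →
      z + δ • v ∈ F := by
    intro v ε δ h1 h2 h3 h4
    have := hF h4 hz.1 (show 0 ≤ δ / ε by positivity) (show 0 ≤ 1 - δ / ε by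
      rw [sub_nonneg, div_le_one h1]; exact h3) (by ring)
    have e : (δ / ε) • (z + ε • v) + (1 - δ / ε) • z = z + δ • v := by
      have : δ / ε * ε = δ := by field_simp
      calc (δ / ε) • (z + ε • v) + (1 - δ / ε) • z = z + (δ / ε * ε) • v := by module
        _ = _ := by rw [this]
    rwa [e] at this
  let D : Submodule ℝ (E d) :=
    { carrier := {v | ∃ ε > (0 : ℝ), z + ε • v ∈ F}
      add_mem' := by
        rintro v w ⟨ε, hε, h1⟩ ⟨δ, hδ, h2⟩
        have a1 := shrink v ε (min ε δ) hε (lt_min hε hδ).le (min_le_left _ _) h1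
        have a2 := shrink w δ (min ε δ) hδ (lt_min hε hδ).le (min_le_right _ _) h2
        have a3 := hF a1 a2 (show (0 : ℝ) ≤ 1 / 2 by norm_num) (show (0 : ℝ) ≤ 1 / 2 by norm_num)
          (by norm_num)
        refine ⟨1 / 2 * min ε δ, by have := lt_min hε hδ; positivity, ?_⟩
        have e : (1 / 2 : ℝ) • (z + min ε δ • v) + (1 / 2 : ℝ) • (z + min ε δ • w) =
            z + (1 / 2 * min ε δ) • (v + w) := by module
        rwa [e] at a3
      zero_mem' := ⟨1, one_pos, by simpa using hz.1⟩
      smul_mem' := by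
        rintro c v ⟨ε, hε, h1⟩
        rcases lt_trichotomy c 0 with hc | hc | hc
        · obtain ⟨δ, hδ, h2⟩ := hz.2 _ h1
          refine ⟨δ * ε / (-c), by have : 0 < -c := by linarith
                                   positivity, ?_⟩
          have e : z + δ • (z - (z + ε • v)) = z + (δ * ε / (-c)) • (c • v) := by
            have : δ * ε / (-c) * c = -(δ * ε) := by
              rw [div_mul_eq_mul_div, div_eq_iff (by linarith)]
              ring
            calc z + δ • (z - (z + ε • v)) = z + (-(δ * ε)) • v := by module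
              _ = z + (δ * ε / (-c) * c) • v := by rw [this]
              _ = _ := by module
          rwa [e] at h2
        · exact ⟨1, one_pos, by simpa [hc] using hz.1⟩
        · refine ⟨ε / c, by positivity, ?_⟩
          have e : z + (ε / c) • (c • v) = z + ε • v := by
            have : ε / c * c = ε := by field_simp
            calc z + (ε / c) • (c • v) = z + (ε / c * c) • v := by module
              _ = _ := by rw [this]
          rwa [e] }
  have hle : vectorSpan ℝ F ≤ D := by
    rw [vectorSpan_eq_span_vsub_set_right ℝ hz.1, Submodule.span_le]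
    rintro _ ⟨w, hw, rfl⟩
    refine ⟨1, one_pos, ?_⟩
    simpa using hw
  exact hle hv

theorem dim1_thm (h1 : S_RI1) (hglob : S_GLOB) : S_DIM1 := by
  intro d 𝒯 hL F G hF hG hFG
  obtain ⟨r1, r2, r3⟩ := h1 d
  obtain ⟨-, g2, -, g4, -⟩ := hglob d 𝒯 hL
  have hface := g2 F G hF hG hFG.subset
  obtain ⟨-, hFc, z, hz⟩ := g4 F hF
  obtain ⟨-, -, x0, hx0⟩ := g4 G hG
  have key : ∀ y ∈ G, y ∈ affineSpan ℝ F → y ∈ F := by
    intro y hy hyF
    have hv : z - y ∈ vectorSpan ℝ F := by
      rw [← direction_affineSpan]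
      exact AffineSubspace.vsub_mem_direction (mem_affineSpan ℝ hz.1) hyF
    obtain ⟨ε, hε, hp⟩ := feas hFc hz _ hv
    refine hface.1.left_mem_of_mem_openSegment hy (hface.1.subset hp) hz.1 ?_
    refine ⟨ε / (1 + ε), 1 / (1 + ε), by positivity, by positivity, by field_simp; ring, ?_⟩
    have e1 : (ε / (1 + ε)) - (1 / (1 + ε)) * ε = 0 := by field_simp; ring
    have e2 : (1 / (1 + ε)) + (1 / (1 + ε)) * ε = 1 := by field_simp
    calc (ε / (1 + ε)) • y + (1 / (1 + ε)) • (z + ε • (z - y)) =
        ((ε / (1 + ε)) - (1 / (1 + ε)) * ε) • y + ((1 / (1 + ε)) + (1 / (1 + ε)) * ε) • z := by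
          module
      _ = z := by rw [e1, e2]; simp
  have hno : ∀ x ∈ ri G, x ∉ affineSpan ℝ F := by
    intro x hx hxF
    have := r1 G F G x hface.1 Subset.rfl hx (key x hx.1 hxF)
    exact hFG.2 this
  refine ⟨hno, ?_⟩
  apply Submodule.finrank_lt_finrank_of_lt
  refine lt_of_le_of_ne (vectorSpan_mono ℝ hFG.subset) ?_
  intro heq
  apply hno x0 hx0
  have hzG : z ∈ G := hFG.subset hz.1
  have hv : x0 -ᵥ z ∈ vectorSpan ℝ G := vsub_mem_vectorSpan ℝ hx0.1 hzG
  rw [← heq, ← direction_affineSpan] at hv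
  exact (AffineSubspace.vsub_right_mem_direction_iff_mem (mem_affineSpan ℝ hz.1) x0).1 hv

end TL
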