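import Mathlib

set_option autoImplicit false

/-! # TL: combinatorially regular normal LFC tilings (MP_c8d3bb_co), definitions -/

namespace TL

open Set

/-- Euclidean `d`-space -/
abbrev E (d : ℕ) := EuclideanSpace ℝ (Fin d)

variable {d : ℕ}

/-- A convex `d`-polytope in `E^d`: convex hull of a finite set, with nonempty interior. -/
def IsPoly (T : Set (E d)) : Prop :=
  (∃ s : Finset (E d), T = convexHull ℝ (s : Set (E d))) ∧ (interior T).Nonempty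

/-- `F` is a face of the convex set `T` (`∅` and `T` are included): a convex extreme subset. -/
def IsFace (T F : Set (E d)) : Prop := IsExtreme ℝ T F ∧ Convex ℝ F

/-- LFC tilings of `E^d`: locally finite, face-to-face tilings by convex `d`-polytopes. -/
structure LFC (𝒯 : Set (Set (E d))) : Prop where
  poly : ∀ T ∈ 𝒯, IsPoly T
  cover : ∀ x : E d, ∃ T ∈ 𝒯, x ∈ T
  disj : ∀ T ∈ 𝒯, ∀ T' ∈ 𝒯, T ≠ T' → Disjoint (interior T) (interior T')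
  face : ∀ T ∈ 𝒯, ∀ T' ∈ 𝒯, IsFace T (T ∩ T')
  locfin : ∀ K : Set (E d), IsCompact K → {T | T ∈ 𝒯 ∧ (T ∩ K).Nonempty}.Finite

/-- The face poset: all faces of all tiles (including `∅`) and `E^d`, ordered by inclusion. -/
def FP (𝒯 : Set (Set (E d))) : Type := {F : Set (E d) // F = univ ∨ ∃ T ∈ 𝒯, IsFace T F}

instance (𝒯 : Set (Set (E d))) : PartialOrder (FP 𝒯) := Subtype.partialOrder _

/-- The automorphism group of the face poset is transitive on flags (maximal chains). -/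
def CombReg (𝒯 : Set (Set (E d))) : Prop :=
  ∀ c c' : Set (FP 𝒯), IsMaxChain (· ≤ ·) c → IsMaxChain (· ≤ ·) c' →
    ∃ e : FP 𝒯 ≃o FP 𝒯, e '' c = c'

/-- The symmetry group is transitive on flags. -/
def Regular (𝒯 : Set (Set (E d))) : Prop :=
  ∀ c c' : Set (FP 𝒯), IsMaxChain (· ≤ ·) c → IsMaxChain (· ≤ ·) c' →
    ∃ φ : E d ≃ᵢ E d, (∀ T : Set (E d), φ '' T ∈ 𝒯 ↔ T ∈ 𝒯) ∧
      (fun F => φ '' F) '' (Subtype.val '' c) = Subtype.val '' c'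

/-- Normal tilings: inradii bounded below, circumradii bounded above. -/
def Normal (𝒯 : Set (Set (E d))) : Prop :=
  ∃ r R : ℝ, 0 < r ∧ 0 < R ∧ ∀ T ∈ 𝒯, ∃ a b : E d, Metric.closedBall a r ⊆ T ∧
    T ⊆ Metric.closedBall b R

/-! ## auxiliary notions -/

/-- nonempty faces of the tiling -/
def Fc (𝒯 : Set (Set (E d))) (F : Set (E d)) : Prop := F.Nonempty ∧ ∃ T ∈ 𝒯, IsFace T F

/-- a full flag, as a strictly increasing sequence of `d + 1` nonempty faces -/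
structure Flg (𝒯 : Set (Set (E d))) where
  F : Fin (d + 1) → Set (E d)
  fc : ∀ i, Fc 𝒯 (F i)
  mono : StrictMono F

/-- the `i`-th face of a flag as element of the face poset -/
def Flg.el {𝒯 : Set (Set (E d))} (Φ : Flg 𝒯) (i : Fin (d + 1)) : FP 𝒯 :=
  ⟨Φ.F i, Or.inr (Φ.fc i).2⟩

/-- adjacency of flags: they differ in the `i`-th face only -/
def FAdj {𝒯 : Set (Set (E d))} (i : Fin (d + 1)) (Φ Ψ : Flg 𝒯) : Prop :=
  Φ ≠ Ψ ∧ ∀ j, j ≠ i → Φ.F j = Ψ.F j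

/-- automorphism group of the face poset -/
abbrev Au (𝒯 : Set (Set (E d))) := FP 𝒯 ≃o FP 𝒯

/-- (algebraic) relative interior -/
def ri (F : Set (E d)) : Set (E d) := {x | x ∈ F ∧ ∀ y ∈ F, ∃ ε > (0 : ℝ), x + ε • (x - y) ∈ F}

/-- Colored triangulations of `E^d`: `Fl` = chambers, `V` = vertices, `L Φ i` = the vertex of
colour `i` of the chamber `Φ`, `pt` = position of the vertices. -/
structure Cx (d : ℕ) (Fl V : Type) where
  L : Fl → Fin (d + 1) → V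
  pt : V → E d
  inj : ∀ Φ Ψ, L Φ = L Ψ → Φ = Ψ
  aff : ∀ Φ, AffineIndependent ℝ (fun i => pt (L Φ i))
  cov : ∀ x : E d, ∃ Φ, x ∈ convexHull ℝ (range fun i => pt (L Φ i))
  lf : ∀ K : Set (E d), IsCompact K →
    {Φ | (convexHull ℝ (range fun i => pt (L Φ i)) ∩ K).Nonempty}.Finite
  t3 : ∀ Φ Ψ (a b : Fin (d + 1) → ℝ), (∀ i, 0 ≤ a i) → (∀ i, 0 ≤ b i) → ∑ i, a i = 1 →
    ∑ i, b i = 1 → ∑ i, a i • pt (L Φ i) = ∑ i, b i • pt (L Ψ i) →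
    a = b ∧ ∀ i, 0 < a i → L Φ i = L Ψ i

namespace Cx
variable {Fl V : Type} (X : Cx d Fl V)

/-- the chamber as a simplex -/
def cell (Φ : Fl) : Set (E d) := convexHull ℝ (range fun i => X.pt (X.L Φ i))

/-- adjacency through the wall opposite to the vertex of colour `i` -/
def Adj (i : Fin (d + 1)) (Φ Ψ : Fl) : Prop := Φ ≠ Ψ ∧ ∀ j, j ≠ i → X.L Φ j = X.L Ψ j

/-- the union of the faces of codimension at least `k` of the chambers -/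
def skel (k : ℕ) : Set (E d) :=
  {x | ∃ (Φ : Fl) (a : Fin (d + 1) → ℝ), (∀ i, 0 ≤ a i) ∧ ∑ i, a i = 1 ∧
    x = ∑ i, a i • X.pt (X.L Φ i) ∧ k ≤ (Finset.univ.filter fun i => a i = 0).card}

open Classical in
/-- restriction of a function on the chambers to the chambers containing `y` -/
noncomputable def rs {W : Type} [One W] (y : E d) (f : Fl → W) : Fl → W :=
  fun Φ => if y ∈ X.cell Φ then f Φ else 1

/-- local sections at `x` -/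
def Sec {W : Type} [Group W] (s : Fin (d + 1) → W) (nb : Fin (d + 1) → Fl → Fl) (x : E d) :
    Set (Fl → W) :=
  {f | (∀ Φ, x ∉ X.cell Φ → f Φ = 1) ∧
    ∀ Φ i, x ∈ X.cell Φ → x ∈ X.cell (nb i Φ) → f (nb i Φ) = f Φ * s i}

end Cx

/-- the data of the simple connectivity statement: involutions `s i` in `W`, neighbour maps `nb`,
and every closed alternating gallery gives a relation -/
structure SCHyp {Fl : Type} (adj : Fin (d + 1) → Fl → Fl → Prop) (W : Type) [Group W]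
    (s : Fin (d + 1) → W) (nb : Fin (d + 1) → Fl → Fl) : Prop where
  sq : ∀ i, s i * s i = 1
  nbadj : ∀ i Φ, adj i Φ (nb i Φ)
  uniq : ∀ i Φ Ψ, adj i Φ Ψ → Ψ = nb i Φ
  rel : ∀ Φ i j, i ≠ j → ∀ m : ℕ, (fun Ψ => nb j (nb i Ψ))^[m] Φ = Φ → (s i * s j) ^ m = 1

/-- everything we need to know about a combinatorially regular tiling -/
structure Nice (𝒯 : Set (Set (E d))) : Prop where
  lfc : LFC 𝒯
  full : ∀ C : Set (Set (E d)), (∀ F ∈ C, Fc 𝒯 F) → IsChain (· ⊆ ·) C →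
    ∃ Φ : Flg 𝒯, ∀ F ∈ C, ∃ i, Φ.F i = F
  trans : ∀ Φ Ψ : Flg 𝒯, ∃ e : Au 𝒯, ∀ i, e (Φ.el i) = Ψ.el i
  act : ∀ (e : Au 𝒯) (Φ : Flg 𝒯), ∃ Ψ : Flg 𝒯, ∀ i, e (Φ.el i) = Ψ.el i
  rank : ∀ (Φ Ψ : Flg 𝒯) i j, Φ.F i = Ψ.F j → i = j
  top : ∀ Φ : Flg 𝒯, Φ.F (Fin.last d) ∈ 𝒯
  inter : ∀ F G, Fc 𝒯 F → Fc 𝒯 G → (F ∩ G).Nonempty → Fc 𝒯 (F ∩ G)
  wall : ∀ (Φ : Flg 𝒯) i, ∃! Ψ : Flg 𝒯, FAdj i Φ Ψ
  gcon : ∀ Φ Ψ : Flg 𝒯, Relation.ReflTransGen (fun A B => ∃ i, FAdj i A B) Φ Ψ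
  lcon : ∀ (i : Fin (d + 1)) (Φ Ψ : Flg 𝒯), Φ.F i = Ψ.F i →
    Relation.ReflTransGen (fun A B => ∃ j, j ≠ i ∧ FAdj j A B) Φ Ψ
  fin : ∀ (i : Fin (d + 1)) (Φ : Flg 𝒯), {Ψ : Flg 𝒯 | Ψ.F i = Φ.F i}.Finite
  inf : Infinite (Flg 𝒯)
  sc : ∀ (W : Type) [Group W] (s : Fin (d + 1) → W) (nb : Fin (d + 1) → Flg 𝒯 → Flg 𝒯),
    SCHyp FAdj W s nb → ∃ f : Flg 𝒯 → W, ∀ Φ i, f (nb i Φ) = f Φ * s i

/-- `ρ i` moves only the `i`-th face of the base flag -/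
structure TG (𝒯 : Set (Set (E d))) (Φ : Flg 𝒯) (ρ : Fin (d + 1) → Au 𝒯) : Prop where
  fix : ∀ i j, j ≠ i → ρ i (Φ.el j) = Φ.el j
  ne : ∀ i, ρ i (Φ.el i) ≠ Φ.el i

/-- string Coxeter groups with finite maximal parabolics -/
structure Good (d : ℕ) (G : Type) [Group G] (ρ : Fin (d + 1) → G) : Prop where
  gen : Subgroup.closure (range ρ) = ⊤
  sq : ∀ i, ρ i * ρ i = 1
  comm : ∀ i j : Fin (d + 1), (i : ℕ) + 2 ≤ j → orderOf (ρ i * ρ j) = 2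
  ord : ∀ i j : Fin (d + 1), (i : ℕ) + 1 = j → 3 ≤ orderOf (ρ i * ρ j)
  fin : ∀ i, Finite (Subgroup.closure (ρ '' {j | j ≠ i}))
  inf : Infinite G
  up : ∀ (W : Type) [Group W] (s : Fin (d + 1) → W), (∀ i, s i * s i = 1) →
    (∀ i j, i ≠ j → ∀ m : ℕ, (ρ i * ρ j) ^ m = 1 → (s i * s j) ^ m = 1) →
    ∃ f : G →* W, ∀ i, f (ρ i) = s i

/-- polynomial growth -/
def PG {G ι : Type} [Group G] (ρ : ι → G) : Prop :=
  ∃ C e : ℕ, ∀ n : ℕ,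
    {g : G | ∃ l : List ι, l.length ≤ n ∧ (l.map ρ).prod = g}.ncard ≤ C * (n + 1) ^ e

/-- the Schläfli symbol -/
noncomputable def pp {d : ℕ} {G : Type} [Group G] (ρ : Fin (d + 1) → G) (i : ℕ) : ℕ :=
  if h : i < d then orderOf (ρ ⟨i, by omega⟩ * ρ ⟨i + 1, by omega⟩) else 3

/-- the quadratic form of the symbol `p` -/
noncomputable def Q (d : ℕ) (p : ℕ → ℕ) (v : ℕ → ℝ) : ℝ :=
  ∑ i ∈ Finset.range (d + 1), v i ^ 2 -
    2 * ∑ i ∈ Finset.range d, Real.cos (Real.pi / p i) * v i * v (i + 1)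

/-- cubic symbol `{4,3,...,3,4}` -/
def Cub (d : ℕ) (p : ℕ → ℕ) : Prop := ∀ i < d, p i = if i = 0 ∨ i + 1 = d then 4 else 3

/-- the compact hyperbolic symbols -/
def Hyp (d : ℕ) (p : ℕ → ℕ) : Prop :=
  (d = 3 ∧ ((p 0, p 1, p 2) = (3, 5, 3) ∨ (p 0, p 1, p 2) = (4, 3, 5) ∨
    (p 0, p 1, p 2) = (5, 3, 4) ∨ (p 0, p 1, p 2) = (5, 3, 5))) ∨
  (d = 4 ∧ ((p 0, p 1, p 2, p 3) = (3, 3, 3, 5) ∨ (p 0, p 1, p 2, p 3) = (5, 3, 3, 3) ∨
    (p 0, p 1, p 2, p 3) = (4, 3, 3, 5) ∨ (p 0, p 1, p 2, p 3) = (5, 3, 3, 4) ∨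
    (p 0, p 1, p 2, p 3) = (5, 3, 3, 5)))

/-- a concrete LFC tiling of `E^d` with a base flag and isometries `s i` preserving the tiling,
each moving only the `i`-th face of the base flag, with the relations of the symbol `p` -/
def Model (d : ℕ) (p : ℕ → ℕ) : Prop :=
  ∃ 𝒯 : Set (Set (E d)), LFC 𝒯 ∧ ∃ (Φ : Flg 𝒯) (s : Fin (d + 1) → (E d ≃ᵢ E d)),
    (∀ i (T : Set (E d)), s i '' T ∈ 𝒯 ↔ T ∈ 𝒯) ∧
    (∀ i j, j ≠ i → s i '' Φ.F j = Φ.F j) ∧ (∀ i, s i '' Φ.F i ≠ Φ.F i) ∧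
    ∀ i j : Fin (d + 1), (i : ℕ) + 1 = j → (s i * s j) ^ (p i) = 1

/-- Voronoi cell -/
def vc (X : Set (E d)) (a : E d) : Set (E d) := {x | ∀ b ∈ X, dist x a ≤ dist x b}

/-- Voronoi tiling -/
def vor (X : Set (E d)) : Set (Set (E d)) := {T | ∃ a ∈ X, T = vc X a}

end TL
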