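import Pool.Agent.Helper22.TL.Spec

set_option autoImplicit false

namespace TL

open Set

theorem full_thm (hext : S_EXT) (hcov : S_COV) (hdim1 : S_DIM1) (hglob : S_GLOB) : S_FULL := by
  classical
  intro d 𝒯 hd hL hC C hCF hCc
  obtain ⟨e1, e2⟩ := hext d 𝒯 hd hL
  obtain ⟨-, -, -, g4, -, gcount, -⟩ := hglob d 𝒯 hL
  have hdim := hdim1 d 𝒯 hL
  have fin_le : ∀ S : Submodule ℝ (E d), Module.finrank ℝ S ≤ d := by
    intro S
    have := Submodule.finrank_le S
    simpa using this
  -- all maximal chains have the same number of elements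
  have hcard : ∀ c c' : Set (FP 𝒯), IsMaxChain (· ≤ ·) c → IsMaxChain (· ≤ ·) c' →
      c.ncard = c'.ncard := by
    intro c c' hc hc'
    obtain ⟨e, rfl⟩ := hC c c' hc hc'
    rw [ncard_image_of_injective _ e.injective]
  -- there is a maximal chain with `d + 1` proper faces
  have hex : ∃ (c : Set (FP 𝒯)) (C₁ : Finset (Set (E d))), IsMaxChain (· ≤ ·) c ∧
      C₁.card + 2 = c.ncard ∧ C₁.card = d + 1 := by
    by_contra hcon
    push Not at hcon
    -- centres
    have : ∀ F, ∃ p : E d, Fc 𝒯 F → p ∈ ri F := by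
      intro F
      by_cases hF : Fc 𝒯 F
      · obtain ⟨-, -, p, hp⟩ := g4 F hF
        exact ⟨p, fun _ => hp⟩
      · exact ⟨0, fun h => absurd h hF⟩
    choose cen hcen using this
    have : Countable {F // Fc 𝒯 F} := gcount.to_subtype
    let A : Finset {F // Fc 𝒯 F} → Set (E d) := fun s =>
      if s.card ≤ d then (affineSpan ℝ ((fun F : {F // Fc 𝒯 F} => cen F.1) '' (s : Set _)) :
        Set (E d)) else ∅
    have hA0 : ∀ s, MeasureTheory.volume (A s) = 0 := by
      intro s
      by_cases hs : s.card ≤ d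
      · simp only [A, if_pos hs]
        apply MeasureTheory.Measure.addHaar_affineSubspace
        intro htop
        rcases Nat.eq_zero_or_pos s.card with h0 | h0
        · rw [Finset.card_eq_zero] at h0
          rw [h0, Finset.coe_empty, image_empty, AffineSubspace.span_empty] at htop
          exact AffineSubspace.bot_ne_top ℝ (E d) (E d) htop
        · obtain ⟨n, hn⟩ : ∃ n, s.card = n + 1 := ⟨s.card - 1, by omega⟩
          have h1 := finrank_vectorSpan_image_finset_le ℝ
            (fun F : {F // Fc 𝒯 F} => cen F.1) s hn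
          rw [← direction_affineSpan, Finset.coe_image, htop, AffineSubspace.direction_top,
            finrank_top] at h1
          simp at h1
          omega
      · simp only [A, if_neg hs]
        exact MeasureTheory.measure_empty
    have hcover : (univ : Set (E d)) ⊆ ⋃ s, A s := by
      intro x _
      obtain ⟨C', a, hF, hch, hpos, hsum, hx⟩ := hcov d 𝒯 hL cen (fun F hF => hcen F hF) x
      obtain ⟨c, hc, hcC'⟩ := e1 (C' : Set (Set (E d))) (fun F h => hF F h) hch
      obtain ⟨C₁, hC₁mem, hC₁F, hC₁card, -, hC₁le⟩ := e2 c hc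
      have hsub : C' ⊆ C₁ := by
        intro F h
        rw [hC₁mem]
        refine ⟨(hF F h).1, ?_, hcC' F h⟩
        intro huniv
        have h2 := (g4 F (hF F h)).1
        rw [huniv] at h2
        have : Nontrivial (E d) := by
          have : Nonempty (Fin d) := ⟨⟨0, by omega⟩⟩
          infer_instance
        exact noncompact_univ (E d) h2
      have hle : C'.card ≤ d := by
        have h1 := Finset.card_le_card hsub
        have h2 := hcon c C₁ hc hC₁card
        omega
      let s : Finset {F // Fc 𝒯 F} := C'.attach.image (fun F => ⟨F.1, hF F.1 F.2⟩)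
      have hscard : s.card ≤ d := by
        refine (Finset.card_image_le).trans ?_
        rw [Finset.card_attach]
        exact hle
      refine mem_iUnion.2 ⟨s, ?_⟩
      simp only [A, if_pos hscard]
      have himg : ((fun F : {F // Fc 𝒯 F} => cen F.1) '' (s : Set _)) =
          cen '' (C' : Set (Set (E d))) := by
        ext p
        constructor
        · rintro ⟨F, hFs, rfl⟩
          rw [Finset.mem_coe, Finset.mem_image] at hFs
          obtain ⟨G, -, rfl⟩ := hFs
          exact ⟨G.1, G.2, rfl⟩
        · rintro ⟨F, hFC, rfl⟩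
          refine ⟨⟨F, hF F hFC⟩, ?_, rfl⟩
          rw [Finset.mem_coe, Finset.mem_image]
          exact ⟨⟨F, hFC⟩, Finset.mem_attach _ _, rfl⟩
      rw [himg]
      have h3 : x ∈ convexHull ℝ (cen '' (C' : Set (Set (E d)))) := by
        rw [← hx]
        apply (convex_convexHull ℝ _).sum_mem (fun F h => (hpos F h).le) hsum
        intro F h
        exact subset_convexHull ℝ _ ⟨F, h, rfl⟩
      exact convexHull_subset_affineSpan _ h3
    have h1 : MeasureTheory.volume (univ : Set (E d)) = 0 := by
      refine nonpos_iff_eq_zero.1 ?_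
      refine (MeasureTheory.measure_mono hcover).trans ?_
      exact (MeasureTheory.measure_iUnion_null hA0).le
    exact (isOpen_univ.measure_pos MeasureTheory.volume univ_nonempty).ne' h1
  obtain ⟨c', C₁', hc', hc'card, hC₁'⟩ := hex
  obtain ⟨c, hc, hcC⟩ := e1 C hCF hCc
  obtain ⟨C₀, hmem, hF₀, hcard₀, -, -⟩ := e2 c hc
  have hC₀ : C₀.card = d + 1 := by
    have := hcard c c' hc hc'
    omega
  -- rank function
  let r : Set (E d) → ℕ := fun F => Module.finrank ℝ (vectorSpan ℝ F)
  have hcomp : ∀ F ∈ C₀, ∀ G ∈ C₀, F ⊆ G ∨ G ⊆ F := by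
    intro F hF G hG
    obtain ⟨-, -, x, hx, rfl⟩ := (hmem F).1 hF
    obtain ⟨-, -, y, hy, rfl⟩ := (hmem G).1 hG
    by_cases hxy : x = y
    · subst hxy; exact Or.inl Subset.rfl
    · exact hc.1 hx hy hxy
  have hrlt : ∀ F ∈ C₀, ∀ G ∈ C₀, F ⊂ G → r F < r G := fun F hF G hG h =>
    (hdim F G (hF₀ F hF) (hF₀ G hG) h).2
  have hrinj : ∀ F ∈ C₀, ∀ G ∈ C₀, r F = r G → F = G := by
    intro F hF G hG h
    by_contra hne
    rcases hcomp F hF G hG with h1 | h1
    · have := hrlt F hF G hG (lt_of_le_of_ne h1 hne)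
      omega
    · have := hrlt G hG F hF (lt_of_le_of_ne h1 (Ne.symm hne))
      omega
  have himg : C₀.image r = Finset.range (d + 1) := by
    apply Finset.eq_of_subset_of_card_le
    · intro k hk
      obtain ⟨F, hF, rfl⟩ := Finset.mem_image.1 hk
      have := fin_le (vectorSpan ℝ F)
      rw [Finset.mem_range]
      show Module.finrank ℝ (vectorSpan ℝ F) < d + 1
      omega
    · rw [Finset.card_range, Finset.card_image_of_injOn, hC₀]
      intro F hF G hG h
      exact hrinj F hF G hG h
  have hex2 : ∀ i : Fin (d + 1), ∃ F ∈ C₀, r F = i := by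
    intro i
    have : (i : ℕ) ∈ C₀.image r := by rw [himg, Finset.mem_range]; exact i.2
    obtain ⟨F, hF, h⟩ := Finset.mem_image.1 this
    exact ⟨F, hF, h⟩
  choose Φ hΦ hΦr using hex2
  refine ⟨⟨Φ, fun i => hF₀ _ (hΦ i), ?_⟩, ?_⟩
  · intro i j hij
    have hne : Φ i ≠ Φ j := by
      intro h
      have h1 := hΦr i
      rw [h, hΦr j] at h1
      have : (i : ℕ) < j := hij
      omega
    rcases hcomp _ (hΦ i) _ (hΦ j) with h1 | h1
    · exact lt_of_le_of_ne h1 hne
    · have := hrlt _ (hΦ j) _ (hΦ i) (lt_of_le_of_ne h1 (Ne.symm hne))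
      rw [hΦr, hΦr] at this
      have h2 : (i : ℕ) < j := hij
      omega
  · intro F hF
    have hFC₀ : F ∈ C₀ := by
      rw [hmem]
      refine ⟨(hCF F hF).1, ?_, hcC F hF⟩
      intro huniv
      have h2 := (g4 F (hCF F hF)).1
      rw [huniv] at h2
      have : Nontrivial (E d) := by
        have : Nonempty (Fin d) := ⟨⟨0, by omega⟩⟩
        infer_instance
      exact noncompact_univ (E d) h2
    have hlt : r F < d + 1 := by
      have := fin_le (vectorSpan ℝ F)
      show Module.finrank ℝ (vectorSpan ℝ F) < d + 1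
      omega
    refine ⟨⟨r F, hlt⟩, ?_⟩
    exact hrinj _ (hΦ _) _ hFC₀ (hΦr _)

end TL
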