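import Pool.Agent.Helper22.TL.Spec

set_option autoImplicit false

namespace TL

open Set

theorem glob_thm (h1 : S_RI1) (h2 : S_RI2) : S_GLOB := by
  classical
  intro d 𝒯 hL
  obtain ⟨r1, r2, r3⟩ := h1 d
  obtain ⟨q1, q2⟩ := h2 d
  have hfacesymm : ∀ T ∈ 𝒯, ∀ T' ∈ 𝒯, IsFace T' (T ∩ T') := by
    intro T hT T' hT'
    rw [inter_comm]
    exact hL.face T' hT' T hT
  have hTconv : ∀ T ∈ 𝒯, Convex ℝ T := by
    intro T hT
    obtain ⟨⟨s, rfl⟩, -⟩ := hL.poly T hT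
    exact convex_convexHull ℝ _
  have main : ∀ (F G : Set (E d)) (x : E d), Fc 𝒯 F → Fc 𝒯 G → x ∈ ri F → x ∈ G →
      F ⊆ G ∧ IsFace G F := by
    rintro F G x ⟨hFne, T, hT, hFT⟩ ⟨hGne, T', hT', hGT'⟩ hx hxG
    have hxT : x ∈ T := hFT.1.subset hx.1
    have hxT' : x ∈ T' := hGT'.1.subset hxG
    have e1 : F ⊆ T ∩ T' := r1 T (T ∩ T') F x (hL.face T hT T' hT').1 hFT.1.subset hx ⟨hxT, hxT'⟩
    have e2 : IsExtreme ℝ (T ∩ T') F := hFT.1.mono inter_subset_left e1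
    have e3 : IsExtreme ℝ T' F := (hfacesymm T hT T' hT').1.trans e2
    have e4 : F ⊆ G := r1 T' G F x hGT'.1 e3.subset hx hxG
    exact ⟨e4, e3.mono hGT'.1.subset e4, hFT.2⟩
  have hri : ∀ F, Fc 𝒯 F → (ri F).Nonempty := by
    rintro F ⟨hFne, T, hT, hFT⟩
    obtain ⟨s, -, -, hs⟩ := q1 T F (hL.poly T hT) hFT hFne
    exact ⟨_, hs⟩
  have hcount : {F | Fc 𝒯 F}.Countable := by
    have hT : 𝒯.Countable := by
      have : 𝒯 ⊆ ⋃ n : ℕ, {T | T ∈ 𝒯 ∧ (T ∩ Metric.closedBall (0 : E d) n).Nonempty} := by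
        intro T hT
        obtain ⟨x, hx⟩ := (hL.poly T hT).2
        obtain ⟨n, hn⟩ := exists_nat_ge (dist x 0)
        exact mem_iUnion.2 ⟨n, hT, x, interior_subset hx, hn⟩
      refine (countable_iUnion fun n => ?_).mono this
      exact (hL.locfin _ (isCompact_closedBall _ _)).countable
    have : {F | Fc 𝒯 F} ⊆ ⋃ T ∈ 𝒯, {F | IsFace T F} := by
      rintro F ⟨-, T, hT, hF⟩
      exact mem_biUnion hT hF
    exact (hT.biUnion fun T hT => (q2 T (hL.poly T hT)).countable).mono this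
  refine ⟨main, ?_, ?_, ?_, ?_, hcount, ?_⟩
  · intro F G hF hG hFG
    obtain ⟨x, hx⟩ := hri F hF
    exact (main F G x hF hG hx (hFG hx.1)).2
  · rintro F G ⟨hFne, T, hT, hFT⟩ ⟨hGne, T', hT', hGT'⟩ hne
    refine ⟨hne, T, hT, ?_, hFT.2.inter hGT'.2⟩
    have a1 : IsExtreme ℝ T' (G ∩ (T ∩ T')) := hGT'.1.inter (hfacesymm T hT T' hT').1
    have a2 : IsExtreme ℝ (T ∩ T') (G ∩ (T ∩ T')) := a1.mono inter_subset_right inter_subset_right
    have a3 : IsExtreme ℝ T (G ∩ (T ∩ T')) := (hL.face T hT T' hT').1.trans a2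
    have a4 : IsExtreme ℝ T (F ∩ (G ∩ (T ∩ T'))) := hFT.1.inter a3
    have : F ∩ (G ∩ (T ∩ T')) = F ∩ G := by
      ext x
      constructor
      · rintro ⟨h1, h2, -⟩; exact ⟨h1, h2⟩
      · rintro ⟨h1, h2⟩; exact ⟨h1, h2, hFT.1.subset h1, hGT'.1.subset h2⟩
    rwa [this] at a4
  · intro F hF
    refine ⟨?_, ?_, hri F hF⟩
    · obtain ⟨hFne, T, hT, hFT⟩ := hF
      obtain ⟨s, -, hs, -⟩ := q1 T F (hL.poly T hT) hFT hFne
      rw [hs]
      exact s.finite_toSet.isCompact_convexHull ℝ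
    · obtain ⟨-, T, hT, hFT⟩ := hF
      exact hFT.2
  · intro x
    obtain ⟨T, hT, hxT⟩ := hL.cover x
    obtain ⟨F, hF, hx⟩ := r3 T x (hTconv T hT) hxT
    exact ⟨F, ⟨⟨x, hx.1⟩, T, hT, hF⟩, hx⟩
  · intro K hK
    refine ((hL.locfin K hK).biUnion (t := fun T => {F | IsFace T F}) ?_).subset ?_
    · rintro T ⟨hT, -⟩
      exact q2 T (hL.poly T hT)
    · rintro F ⟨⟨hFne, T, hT, hFT⟩, x, hxF, hxK⟩
      exact mem_biUnion (show T ∈ {T | T ∈ 𝒯 ∧ (T ∩ K).Nonempty} from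
        ⟨hT, x, hFT.1.subset hxF, hxK⟩) hFT

end TL
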