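import Mathlib

set_option autoImplicit false

namespace TL.Geo

open Real

/-- Chebyshev type sequence `0, 1, 2c, …` -/
noncomputable def qs (c : ℝ) : ℕ → ℝ
  | 0 => 0
  | 1 => 1
  | (k + 2) => 2 * c * qs c (k + 1) - qs c k

@[simp] lemma qs_zero (c : ℝ) : qs c 0 = 0 := rfl
@[simp] lemma qs_one (c : ℝ) : qs c 1 = 1 := rfl
lemma qs_add_two (c : ℝ) (k : ℕ) : qs c (k + 2) = 2 * c * qs c (k + 1) - qs c k := rfl

lemma qs_sin (θ : ℝ) (k : ℕ) : qs (cos θ) k * sin θ = sin (k * θ) := by
  induction k using Nat.strong_induction_on with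
  | _ k ih =>
    match k with
    | 0 => simp
    | 1 => simp
    | (k + 2) =>
      rw [qs_add_two, sub_mul, mul_assoc, ih (k + 1) (by omega), ih k (by omega)]
      have h1 : ((k + 2 : ℕ) : ℝ) * θ = ((k + 1 : ℕ) : ℝ) * θ + θ := by push_cast; ring
      have h2 : (k : ℝ) * θ = ((k + 1 : ℕ) : ℝ) * θ - θ := by push_cast; ring
      rw [h1, h2, sin_add, sin_sub]
      ring

lemma qs_of_one (k : ℕ) : qs 1 k = k := by
  induction k using Nat.strong_induction_on with
  | _ k ih =>
    match k with
    | 0 => simp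
    | 1 => simp
    | (k + 2) =>
      rw [qs_add_two, ih (k + 1) (by omega), ih k (by omega)]
      push_cast; ring

variable {B : Type*} (M : CoxeterMatrix B)

/-- cosine entries; infinite entries (coded `0`) give `cos 0 = 1`. -/
noncomputable def cc (i j : B) : ℝ := cos (π / (M i j : ℝ))

lemma cc_symm (i j : B) : cc M i j = cc M j i := by
  unfold cc; rw [M.symmetric]

@[simp] lemma cc_self (i : B) : cc M i i = -1 := by
  simp [cc]

lemma two_le_of_ne {i j : B} (h : i ≠ j) (h0 : M i j ≠ 0) : 2 ≤ M i j := by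
  have := M.off_diagonal i j h
  omega

lemma cc_of_zero {i j : B} (h : M i j = 0) : cc M i j = 1 := by simp [cc, h]

lemma sin_pos_of_ne {i j : B} (h : i ≠ j) (h0 : M i j ≠ 0) : 0 < sin (π / (M i j : ℝ)) := by
  have h2 := two_le_of_ne M h h0
  have h2' : (2 : ℝ) ≤ (M i j : ℝ) := by exact_mod_cast h2
  apply sin_pos_of_pos_of_lt_pi
  · positivity
  · rw [div_lt_iff₀ (by linarith)]
    nlinarith [pi_pos]

lemma qs_nonneg {i j : B} (h : i ≠ j) {k : ℕ} (hk : M i j = 0 ∨ k ≤ M i j) :
    0 ≤ qs (cc M i j) k := by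
  by_cases h0 : M i j = 0
  · rw [cc_of_zero M h0, qs_of_one]
    positivity
  · have hk' : k ≤ M i j := hk.resolve_left h0
    have hs := sin_pos_of_ne M h h0
    have h1 : 0 ≤ sin (k * (π / (M i j : ℝ))) := by
      apply sin_nonneg_of_nonneg_of_le_pi
      · positivity
      · have hm : (0 : ℝ) < (M i j : ℝ) := by
          have := two_le_of_ne M h h0
          exact_mod_cast (by omega : 0 < M i j)
        have : (k : ℝ) ≤ (M i j : ℝ) := by exact_mod_cast hk'
        rw [mul_div_assoc', div_le_iff₀ hm]
        nlinarith [pi_pos]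
    rw [← qs_sin] at h1
    exact nonneg_of_mul_nonneg_left h1 hs

variable [Fintype B] [DecidableEq B]

/-- basis vector -/
abbrev ee (i : B) : B → ℝ := Pi.single i 1

/-- coroot functional `v ↦ 2 (e_i, v)` -/
noncomputable def coroot (i : B) : Module.Dual ℝ (B → ℝ) :=
  ∑ j, (-2 * cc M i j) • LinearMap.proj j

@[simp] lemma coroot_ee (i j : B) : coroot M i (ee j) = -2 * cc M i j := by
  simp [coroot, ee, LinearMap.sum_apply, Pi.single_apply]

/-- reflection -/
noncomputable def sg (i : B) : Module.End ℝ (B → ℝ) := Module.preReflection (ee i) (coroot M i)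

lemma sg_apply (i : B) (v : B → ℝ) : sg M i v = v - coroot M i v • ee i := rfl

lemma sg_sg (i : B) (v : B → ℝ) : sg M i (sg M i v) = v := by
  have h : coroot M i (ee i) = 2 := by simp
  exact Module.involutive_preReflection h v

lemma sg_sq (i : B) : sg M i * sg M i = 1 := by
  apply LinearMap.ext
  intro v
  exact sg_sg M i v

lemma sg_ee_self (i : B) : sg M i (ee i) = - ee i := by
  rw [sg_apply, coroot_ee, cc_self]
  module

lemma sg_ee (i j : B) : sg M j (ee i) = ee i + (2 * cc M i j) • ee j := by
  rw [sg_apply, coroot_ee, cc_symm]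
  module

open CoxeterSystem in
/-- Dihedral computation. -/
lemma prod_alt_ee (i j : B) (k : ℕ) :
    (((alternatingWord i j k).map (sg M)).prod) (ee i) =
      if Even k then qs (cc M i j) (k + 1) • ee i + qs (cc M i j) k • ee j
      else qs (cc M i j) (k + 1) • ee j + qs (cc M i j) k • ee i := by
  induction k with
  | zero => simp [alternatingWord]
  | succ k ih =>
    rw [alternatingWord_succ', List.map_cons, List.prod_cons, Module.End.mul_apply, ih]
    by_cases hk : Even k
    · have hk1 : ¬ Even (k + 1) := by simpa [Nat.even_add_one] using hk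
      simp only [hk, hk1, if_true, if_false]
      rw [map_add, map_smul, map_smul, sg_ee, sg_ee_self, qs_add_two]
      module
    · have hk1 : Even (k + 1) := by simpa [Nat.even_add_one] using hk
      simp only [hk, hk1, if_true, if_false]
      rw [map_add, map_smul, map_smul, sg_ee, sg_ee_self, qs_add_two, cc_symm M j i]
      module

lemma prod_alt_eq_pow {G : Type*} [Monoid G] (f : B → G) (i j : B) (m : ℕ) :
    (((CoxeterSystem.alternatingWord i j (2 * m)).map f).prod) = (f i * f j) ^ m := by
  induction m with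
  | zero => simp [CoxeterSystem.alternatingWord]
  | succ m ih =>
    have h1 : 2 * (m + 1) = 2 * m + 1 + 1 := by ring
    rw [h1, CoxeterSystem.alternatingWord_succ', CoxeterSystem.alternatingWord_succ']
    have he : Even (2 * m) := even_two_mul m
    have ho : ¬ Even (2 * m + 1) := by simp
    simp only [he, ho, if_true, if_false, List.map_cons, List.prod_cons, ih]
    rw [pow_succ', mul_assoc]

lemma qs_two_mul {i j : B} (h : i ≠ j) (h0 : M i j ≠ 0) :
    qs (cc M i j) (2 * M i j) = 0 ∧ qs (cc M i j) (2 * M i j + 1) = 1 := by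
  have hs := sin_pos_of_ne M h h0
  have hm : (M i j : ℝ) ≠ 0 := by exact_mod_cast h0
  constructor
  · have h1 := qs_sin (π / (M i j : ℝ)) (2 * M i j)
    have h2 : ((2 * M i j : ℕ) : ℝ) * (π / (M i j : ℝ)) = 2 * π := by
      push_cast; field_simp
    rw [h2, sin_two_pi] at h1
    exact (mul_eq_zero.mp h1).resolve_right hs.ne'
  · have h1 := qs_sin (π / (M i j : ℝ)) (2 * M i j + 1)
    have h2 : ((2 * M i j + 1 : ℕ) : ℝ) * (π / (M i j : ℝ)) = (π / (M i j : ℝ)) + 2 * π := by
      push_cast; field_simp; ring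
    rw [h2, sin_add_two_pi] at h1
    have : (qs (cc M i j) (2 * M i j + 1) - 1) * sin (π / (M i j : ℝ)) = 0 := by
      rw [sub_mul, one_mul]
      exact sub_eq_zero.mpr h1
    have := (mul_eq_zero.mp this).resolve_right hs.ne'
    linarith

lemma pow_ee_left {i j : B} (h : i ≠ j) (h0 : M i j ≠ 0) :
    ((sg M i * sg M j) ^ M i j) (ee i) = ee i := by
  rw [← prod_alt_eq_pow, prod_alt_ee]
  obtain ⟨h1, h2⟩ := qs_two_mul M h h0
  simp [h1, h2]

lemma pow_ee_right {i j : B} (h : i ≠ j) (h0 : M i j ≠ 0) :
    ((sg M i * sg M j) ^ M i j) (ee j) = ee j := by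
  have h1 := pow_ee_left M h.symm (by rwa [M.symmetric])
  have h2 : (sg M i * sg M j) ^ M i j * (sg M j * sg M i) ^ M i j = 1 := by
    have : ∀ m : ℕ, (sg M i * sg M j) ^ m * (sg M j * sg M i) ^ m = 1 := by
      intro m
      induction m with
      | zero => simp
      | succ m ih =>
        rw [pow_succ, pow_succ']
        calc (sg M i * sg M j) ^ m * (sg M i * sg M j) * (sg M j * sg M i * (sg M j * sg M i) ^ m)
            = (sg M i * sg M j) ^ m * (sg M i * (sg M j * sg M j) * sg M i) *
              (sg M j * sg M i) ^ m := by simp only [mul_assoc]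
          _ = 1 := by rw [sg_sq, mul_one, sg_sq, mul_one, ih]
    exact this _
  rw [M.symmetric j i] at h1
  conv_lhs => rw [← h1]
  rw [← Module.End.mul_apply, h2, Module.End.one_apply]

lemma sg_liftable : M.IsLiftable (sg M) := by
  intro i j
  by_cases hij : i = j
  · subst hij; rw [sg_sq, one_pow]
  by_cases h0 : M i j = 0
  · rw [h0, pow_zero]
  apply LinearMap.ext
  intro v
  have hs := sin_pos_of_ne M hij h0
  set c := cc M i j with hc
  have hc2 : 1 - c ^ 2 ≠ 0 := by
    have : sin (π / (M i j : ℝ)) ^ 2 + c ^ 2 = 1 := sin_sq_add_cos_sq _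
    nlinarith
  set p := coroot M i v with hp
  set r := coroot M j v with hr
  set a := (p + c * r) / (2 * (1 - c ^ 2)) with ha
  set b := (c * p + r) / (2 * (1 - c ^ 2)) with hb
  set v' := v - a • ee i - b • ee j with hv'
  have hcj : cc M j i = c := cc_symm M j i
  have e1 : coroot M i v' = 0 := by
    rw [hv', map_sub, map_sub, map_smul, map_smul, coroot_ee, coroot_ee, cc_self, ← hp, ← hc,
      smul_eq_mul, smul_eq_mul, ha, hb]
    field_simp
    ring
  have e2 : coroot M j v' = 0 := by
    rw [hv', map_sub, map_sub, map_smul, map_smul, coroot_ee, coroot_ee, cc_self, ← hr, hcj,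
      smul_eq_mul, smul_eq_mul, ha, hb]
    field_simp
    ring
  have s1 : sg M i v' = v' := by rw [sg_apply, e1]; simp
  have s2 : sg M j v' = v' := by rw [sg_apply, e2]; simp
  have s3 : ∀ m : ℕ, ((sg M i * sg M j) ^ m) v' = v' := by
    intro m
    induction m with
    | zero => simp
    | succ m ih => rw [pow_succ, Module.End.mul_apply, Module.End.mul_apply, s2, s1, ih]
  have hv : v = v' + a • ee i + b • ee j := by rw [hv']; abel
  rw [Module.End.one_apply]
  conv_lhs => rw [hv]
  rw [map_add, map_add, map_smul, map_smul, s3, pow_ee_left M hij h0, pow_ee_right M hij h0, ← hv]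

variable {M}
variable {W : Type*} [Group W] (cs : CoxeterSystem M W)

/-- The geometric representation. -/
noncomputable def geo : W →* Module.End ℝ (B → ℝ) := cs.lift ⟨sg M, sg_liftable M⟩

@[simp] lemma geo_simple (i : B) : geo cs (cs.simple i) = sg M i := by
  simp [geo]

lemma geo_wordProd (ω : List B) : geo cs (cs.wordProd ω) = (ω.map (sg M)).prod := by
  induction ω with
  | nil => simp
  | cons i ω ih => rw [cs.wordProd_cons, map_mul, ih, geo_simple, List.map_cons, List.prod_cons]

@[simp] lemma geo_inv_apply (w : W) (v : B → ℝ) : geo cs w⁻¹ (geo cs w v) = v := by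
  rw [← Module.End.mul_apply, ← map_mul, inv_mul_cancel, map_one, Module.End.one_apply]

@[simp] lemma geo_apply_inv (w : W) (v : B → ℝ) : geo cs w (geo cs w⁻¹ v) = v := by
  rw [← Module.End.mul_apply, ← map_mul, mul_inv_cancel, map_one, Module.End.one_apply]

lemma geo_injective_apply (w : W) {v v' : B → ℝ} (h : geo cs w v = geo cs w v') : v = v' := by
  rw [← geo_inv_apply cs w v, h, geo_inv_apply]

end TL.Geo
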