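import Pool.Agent.Helper22.TL.Spec

set_option autoImplicit false

namespace TL

open Set

/-- the maximal chains of the face poset, regular implies combinatorially regular -/
theorem combReg_of_regular {d : ℕ} (hI : S_IND) {𝒯 : Set (Set (E d))} (h : Regular 𝒯) :
    CombReg 𝒯 := by
  intro c c' hc hc'
  obtain ⟨φ, hφ, hcc⟩ := h c c' hc hc'
  -- the group of all symmetries
  let Γ : Subgroup (E d ≃ᵢ E d) :=
    { carrier := {ψ | ∀ T : Set (E d), ψ '' T ∈ 𝒯 ↔ T ∈ 𝒯}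
      mul_mem' := by
        intro a b ha hb T
        have : (a * b) '' T = a '' (b '' T) := by
          rw [← image_comp]; rfl
        rw [this, ha, hb]
      one_mem' := by
        intro T
        have : (1 : E d ≃ᵢ E d) '' T = T := by
          have : ((1 : E d ≃ᵢ E d) : E d → E d) = id := rfl
          rw [this, image_id]
        rw [this]
      inv_mem' := by
        intro a ha T
        have h1 := ha (a.symm '' T)
        have h2 : a '' (a.symm '' T) = T := by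
          rw [← image_comp]
          have h3 : (a : E d → E d) ∘ (a.symm : E d ≃ᵢ E d) = id := by
            funext x
            exact a.apply_symm_apply x
          rw [h3, image_id]
        rw [h2] at h1
        exact h1.symm }
  obtain ⟨f, hf⟩ := hI d 𝒯 Γ (fun ψ hψ => hψ)
  refine ⟨f ⟨φ, hφ⟩, ?_⟩
  have hv : Function.Injective (Subtype.val : FP 𝒯 → Set (E d)) := Subtype.val_injective
  have : Subtype.val '' ((f ⟨φ, hφ⟩) '' c) = (Subtype.val '' c' : Set (Set (E d))) := by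
    rw [← hcc]
    ext F
    constructor
    · rintro ⟨_, ⟨x, hx, rfl⟩, rfl⟩
      exact ⟨x.1, ⟨x, hx, rfl⟩, (hf ⟨φ, hφ⟩ x).symm⟩
    · rintro ⟨_, ⟨x, hx, rfl⟩, rfl⟩
      exact ⟨f ⟨φ, hφ⟩ x, ⟨x, hx, rfl⟩, hf ⟨φ, hφ⟩ x⟩
  exact hv.image_injective this

/-- the group of the symmetries of the tiling -/
def symGroup {d : ℕ} (𝒯 : Set (Set (E d))) : Subgroup (E d ≃ᵢ E d) where
  carrier := {ψ | ∀ T : Set (E d), ψ '' T ∈ 𝒯 ↔ T ∈ 𝒯}
  mul_mem' := by
    intro a b ha hb T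
    have : (a * b) '' T = a '' (b '' T) := by
      rw [← image_comp]; rfl
    rw [this, ha, hb]
  one_mem' := by
    intro T
    have : (1 : E d ≃ᵢ E d) '' T = T := by
      have : ((1 : E d ≃ᵢ E d) : E d → E d) = id := rfl
      rw [this, image_id]
    rw [this]
  inv_mem' := by
    intro a ha T
    have h1 := ha (a.symm '' T)
    have h2 : a '' (a.symm '' T) = T := by
      rw [← image_comp]
      have h3 : (a : E d → E d) ∘ (a.symm : E d ≃ᵢ E d) = id := by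
        funext x
        exact a.apply_symm_apply x
      rw [h3, image_id]
    rw [h2] at h1
    exact h1.symm

theorem good_of_nice (hgen : S_KGEN) (hord : S_KORD) (hfin : S_KFIN) (hup : S_KUP) {d : ℕ}
    {𝒯 : Set (Set (E d))} (hd : 2 ≤ d) (hN : Nice 𝒯) (Φ : Flg 𝒯) (ρ : Fin (d + 1) → Au 𝒯)
    (hρ : TG 𝒯 Φ ρ) : Good d (Au 𝒯) ρ where
  gen := (((hgen d 𝒯 hd hN).2 Φ).2 ρ hρ).1
  sq := (((hgen d 𝒯 hd hN).2 Φ).2 ρ hρ).2.1
  comm := (hord d 𝒯 hd hN Φ ρ hρ).1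
  ord := (hord d 𝒯 hd hN Φ ρ hρ).2
  fin := (hfin d 𝒯 hd hN Φ ρ hρ).1
  inf := (hfin d 𝒯 hd hN Φ ρ hρ).2
  up := hup d 𝒯 hd hN Φ ρ hρ

theorem pp_eq {d : ℕ} {G : Type} [Group G] (ρ : Fin (d + 1) → G) (i j : Fin (d + 1))
    (h : (i : ℕ) + 1 = j) : pp ρ i = orderOf (ρ i * ρ j) := by
  have hi : (i : ℕ) < d := by have := j.2; omega
  have e1 : (⟨(i : ℕ), by omega⟩ : Fin (d + 1)) = i := rfl
  have e2 : (⟨(i : ℕ) + 1, by omega⟩ : Fin (d + 1)) = j := Fin.ext h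
  unfold pp
  rw [dif_pos hi, e1, e2]

theorem three_le_pp {d : ℕ} {G : Type} [Group G] {ρ : Fin (d + 1) → G} (h : Good d G ρ) (i : ℕ)
    (hi : i < d) : 3 ≤ pp ρ i := by
  have h1 := pp_eq ρ ⟨i, by omega⟩ ⟨i + 1, by omega⟩ rfl
  simp only at h1
  rw [h1]
  exact h.ord _ _ rfl

/-- the symbol of a good group of polynomial growth -/
theorem classify (hpd : S_PD) (htf : S_TF) (h3 : S_NUM3) (h4 : S_NUM4) (h5 : S_NUM5)
    (hhyp : S_HYP) (hcube : S_CUBE) (m1 : S_M3433) (m2 : S_M3343) {d : ℕ} (hd : 3 ≤ d)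
    (G : Type) [Group G] (ρ : Fin (d + 1) → G) (hG : Good d G ρ) (hPG : PG ρ) :
    ∃ p : ℕ → ℕ, Model d p ∧ (∀ i < d, pp ρ i = p i) ∧ ∀ i, p i = 3 ∨ p i = 4 := by
  have a1 : ∀ i < d, 3 ≤ pp ρ i := fun i hi => three_le_pp hG i hi
  have a2 := hpd d G ρ hG
  have a3 := htf d G ρ hG
  have a4 := hhyp d G ρ hG hPG
  have cub : Cub d (pp ρ) → ∃ p : ℕ → ℕ, Model d p ∧ (∀ i < d, pp ρ i = p i) ∧
      ∀ i, p i = 3 ∨ p i = 4 := by
    intro h
    refine ⟨_, hcube d hd, fun i hi => h i hi, fun i => ?_⟩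
    split_ifs
    · exact Or.inr rfl
    · exact Or.inl rfl
  obtain rfl | h | h : d = 3 ∨ d = 4 ∨ 5 ≤ d := by omega
  · rcases h3 (pp ρ) a1 a2 a3 with h | h
    · exact cub h
    · exact absurd h a4
  · subst h
    rcases h4 (pp ρ) a1 a2 a3 with h | h | h | h
    · exact cub h
    · refine ⟨_, m1, h, fun i => ?_⟩
      split_ifs
      · exact Or.inr rfl
      · exact Or.inl rfl
    · refine ⟨_, m2, h, fun i => ?_⟩
      split_ifs
      · exact Or.inr rfl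
      · exact Or.inl rfl
    · exact absurd h a4
  · exact cub (h5 d (pp ρ) h a1 a2 a3)

theorem orders_eq {d : ℕ} {G G' : Type} [Group G] [Group G'] {ρ : Fin (d + 1) → G}
    {ρ' : Fin (d + 1) → G'} (h : Good d G ρ) (h' : Good d G' ρ')
    (hpp : ∀ i < d, pp ρ i = pp ρ' i) (i j : Fin (d + 1)) (hij : i ≠ j) :
    orderOf (ρ i * ρ j) = orderOf (ρ' i * ρ' j) := by
  have key : ∀ i j : Fin (d + 1), (i : ℕ) < j → orderOf (ρ i * ρ j) = orderOf (ρ' i * ρ' j) := by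
    intro i j hlt
    rcases Nat.lt_or_ge ((i : ℕ) + 1) j with h1 | h1
    · rw [h.comm i j (by omega), h'.comm i j (by omega)]
    · have h2 : (i : ℕ) + 1 = j := by omega
      rw [← pp_eq ρ i j h2, ← pp_eq ρ' i j h2]
      exact hpp i (by have := j.2; omega)
  have sw : ∀ {H : Type} [Group H] {σ : Fin (d + 1) → H} (_ : ∀ i, σ i * σ i = 1)
      (i j : Fin (d + 1)), orderOf (σ i * σ j) = orderOf (σ j * σ i) := by
    intro H _ σ hσ i j
    have hinv : ∀ i, (σ i)⁻¹ = σ i := fun i => inv_eq_of_mul_eq_one_left (hσ i)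
    have : (σ j * σ i)⁻¹ = σ i * σ j := by rw [mul_inv_rev, hinv, hinv]
    rw [← this, orderOf_inv]
  rcases Nat.lt_trichotomy (i : ℕ) j with h1 | h1 | h1
  · exact key i j h1
  · exact absurd (Fin.ext h1) hij
  · rw [sw h.sq i j, sw h'.sq i j]
    exact key j i h1

/-- two good groups with the same symbol are isomorphic -/
theorem good_iso {d : ℕ} {G G' : Type} [Group G] [Group G'] {ρ : Fin (d + 1) → G}
    {ρ' : Fin (d + 1) → G'} (h : Good d G ρ) (h' : Good d G' ρ')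
    (hpp : ∀ i < d, pp ρ i = pp ρ' i) : ∃ θ : G ≃* G', ∀ i, θ (ρ i) = ρ' i := by
  obtain ⟨f, hf⟩ := h.up G' ρ' h'.sq (by
    intro i j hij m hm
    rw [← orderOf_dvd_iff_pow_eq_one] at hm ⊢
    rwa [← orders_eq h h' hpp i j hij])
  obtain ⟨f', hf'⟩ := h'.up G ρ h.sq (by
    intro i j hij m hm
    rw [← orderOf_dvd_iff_pow_eq_one] at hm ⊢
    rwa [orders_eq h h' hpp i j hij])
  have e1 : f'.comp f = MonoidHom.id G := by
    apply MonoidHom.eq_of_eqOn_dense h.gen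
    rintro _ ⟨i, rfl⟩
    simp [hf, hf']
  have e2 : f.comp f' = MonoidHom.id G' := by
    apply MonoidHom.eq_of_eqOn_dense h'.gen
    rintro _ ⟨i, rfl⟩
    simp [hf, hf']
  exact ⟨f.toMulEquiv f' e1 e2, fun i => hf i⟩

theorem main_thm (hnice : S_NICE) (hgen : S_KGEN) (hord : S_KORD) (hfin : S_KFIN) (hup : S_KUP)
    (hgrow : S_KGROW) (hrec : S_KREC) (hpd : S_PD) (htf : S_TF) (h3 : S_NUM3) (h4 : S_NUM4)
    (h5 : S_NUM5) (hhyp : S_HYP) (hind : S_IND) (hreg : S_REG) (hcube : S_CUBE) (m1 : S_M3433)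
    (m2 : S_M3343) : S_MAIN := by
  intro d 𝒯 hd hL hC hNm
  have hd2 : 2 ≤ d := by omega
  have hN : Nice 𝒯 := hnice d 𝒯 hd2 hL hC
  obtain ⟨⟨Φ⟩, hΦ⟩ := hgen d 𝒯 hd2 hN
  obtain ⟨ρ, hρ⟩ := (hΦ Φ).1
  have hG := good_of_nice hgen hord hfin hup hd2 hN Φ ρ hρ
  have hPG := hgrow d 𝒯 hd2 hN hNm Φ ρ hρ
  obtain ⟨p, ⟨𝒯', hL', Φ', s, hs, hfix, hne, hrel⟩, hpp, hp34⟩ :=
    classify hpd htf h3 h4 h5 hhyp hcube m1 m2 hd (Au 𝒯) ρ hG hPG
  have hR' : Regular 𝒯' := hreg d 𝒯' (by omega) hL' Φ' s hs hfix hne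
  have hN' : Nice 𝒯' := hnice d 𝒯' hd2 hL' (combReg_of_regular hind hR')
  obtain ⟨f, hf⟩ := hind d 𝒯' (symGroup 𝒯') (fun ψ hψ => hψ)
  let t : Fin (d + 1) → symGroup 𝒯' := fun i => ⟨s i, hs i⟩
  let ρ' : Fin (d + 1) → Au 𝒯' := fun i => f (t i)
  have hρ' : TG 𝒯' Φ' ρ' := by
    constructor
    · intro i j hij
      apply Subtype.ext
      exact (hf (t i) (Φ'.el j)).trans (hfix i j hij)
    · intro i h
      have h1 := congrArg Subtype.val h
      exact hne i ((hf (t i) (Φ'.el i)).symm.trans h1)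
  have hG' := good_of_nice hgen hord hfin hup hd2 hN' Φ' ρ' hρ'
  have hpp' : ∀ i < d, pp ρ i = pp ρ' i := by
    intro i hi
    have e := pp_eq ρ' ⟨i, by omega⟩ ⟨i + 1, by omega⟩ rfl
    simp only at e
    have h3' := three_le_pp hG' i hi
    have hpow : (ρ' ⟨i, by omega⟩ * ρ' ⟨i + 1, by omega⟩) ^ p i = 1 := by
      have h1 := hrel ⟨i, by omega⟩ ⟨i + 1, by omega⟩ rfl
      have h2 : (t ⟨i, by omega⟩ * t ⟨i + 1, by omega⟩) ^ p i = 1 := Subtype.ext h1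
      have h3 := congrArg f h2
      rwa [map_pow, map_mul, map_one] at h3
    have hdvd := orderOf_dvd_of_pow_eq_one hpow
    rw [← e] at hdvd
    rw [hpp i hi]
    rcases hp34 i with h | h
    · rw [h] at hdvd ⊢
      have := Nat.le_of_dvd (by norm_num) hdvd
      omega
    · rw [h] at hdvd ⊢
      have := Nat.le_of_dvd (by norm_num) hdvd
      have h5 : pp ρ' i = 3 ∨ pp ρ' i = 4 := by omega
      rcases h5 with h5 | h5
      · rw [h5] at hdvd; norm_num at hdvd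
      · exact h5.symm
  obtain ⟨θ, hθ⟩ := good_iso hG hG' hpp'
  exact ⟨𝒯', hL', hR', hrec d 𝒯 𝒯' hd2 hN hN' Φ Φ' ρ ρ' hρ hρ' θ hθ⟩

end TL
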