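import Pool.Agent.Helper22.TL.Spec

set_option autoImplicit false

namespace TL

open Set

theorem nice_thm (hglob : S_GLOB) (hfull : S_FULL) (hact : S_ACT) (hdim : S_DIM) (hcx : S_CX)
    (hwall : S_WALL) (hucon : S_UCON) (hcell : S_CELL) (hsc : S_SC) : S_NICE := by
  intro d 𝒯 hd hL hC
  have hd1 : 1 ≤ d := by omega
  obtain ⟨X, hXL, hXri⟩ := hcx d 𝒯 hd1 hL hC
  have hAdj : ∀ i (Φ Ψ : Flg 𝒯), X.Adj i Φ Ψ ↔ FAdj i Φ Ψ := by
    intro i Φ Ψ
    unfold Cx.Adj FAdj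
    rw [hXL, hXL]
  obtain ⟨hcount, hmem, hint, hcl, hne, hcpt, huniq, hball, hclosed, hsk, hsk2⟩ :=
    hcell d (Flg 𝒯) (Set (E d)) X
  obtain ⟨hT3a, hrank, htop⟩ := hdim d 𝒯 hL
  have rank : ∀ (Φ Ψ : Flg 𝒯) i j, Φ.F i = Ψ.F j → i = j := by
    intro Φ Ψ i j h
    have h1 := hrank Φ i
    have h2 := hrank Ψ j
    rw [h, h2] at h1
    exact Fin.ext h1.symm
  -- the point of a face is in the cells of the flags through the face, and only in these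
  have hpt : ∀ (Φ : Flg 𝒯) (i : Fin (d + 1)), X.pt (Φ.F i) ∈ X.cell Φ := by
    intro Φ i
    rw [hmem]
    refine ⟨fun j => if j = i then 1 else 0, fun j => ?_, ?_, ?_⟩
    · dsimp only; split_ifs <;> norm_num
    · simp
    · simp [hXL]
  have hpt2 : ∀ (Φ Ψ : Flg 𝒯) (i : Fin (d + 1)), X.pt (Φ.F i) ∈ X.cell Ψ → Φ.F i = Ψ.F i := by
    intro Φ Ψ i h
    rw [hmem] at h
    obtain ⟨b, hb0, hb1, hb⟩ := h
    have h3 := X.t3 Φ Ψ (fun j => if j = i then 1 else 0) b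
      (fun j => by split_ifs <;> norm_num) hb0 (by simp) hb1 (by
        rw [← hb]; simp [hXL])
    have h4 := h3.2 i (by simp)
    rwa [hXL, hXL] at h4
  have nonemp : Nonempty (Flg 𝒯) := by
    obtain ⟨Φ, -⟩ := X.cov 0
    exact ⟨Φ⟩
  refine
    { lfc := hL
      full := hfull d 𝒯 hd1 hL hC
      trans := (hact d 𝒯 hd1 hL).2.2 hC
      act := (hact d 𝒯 hd1 hL).1
      rank := rank
      top := htop
      inter := (hglob d 𝒯 hL).2.2.1
      wall := ?_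
      gcon := ?_
      lcon := ?_
      fin := ?_
      inf := ?_
      sc := ?_ }
  · intro Φ i
    obtain ⟨Ψ, h1, h2⟩ := hwall d _ _ X hd1 Φ i
    exact ⟨Ψ, (hAdj _ _ _).1 h1, fun Ψ' h => h2 Ψ' ((hAdj _ _ _).2 h)⟩
  · intro Φ Ψ
    have h := hucon d _ _ X hd1 univ isOpen_univ convex_univ Φ Ψ
      (by rw [inter_univ]; exact (hne Φ).mono interior_subset)
      (by rw [inter_univ]; exact (hne Ψ).mono interior_subset)
    refine Relation.ReflTransGen.mono ?_ _ _ h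
    rintro A B ⟨-, i, hi⟩
    exact ⟨i, (hAdj _ _ _).1 hi⟩
  · intro i Φ Ψ hi
    obtain ⟨ε, hε, hb⟩ := hball (X.pt (Φ.F i))
    have h := hucon d _ _ X hd1 (Metric.ball (X.pt (Φ.F i)) ε) Metric.isOpen_ball
      (convex_ball _ _) Φ Ψ ⟨_, hpt Φ i, Metric.mem_ball_self hε⟩
      ⟨X.pt (Φ.F i), by rw [hi]; exact hpt Ψ i, Metric.mem_ball_self hε⟩
    refine Relation.ReflTransGen.mono ?_ _ _ h
    rintro A B ⟨⟨x, ⟨hxA, hxB⟩, hxU⟩, j, hj⟩
    have hA : X.pt (Φ.F i) ∈ X.cell A := hb A ⟨x, hxA, hxU⟩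
    have hB : X.pt (Φ.F i) ∈ X.cell B := hb B ⟨x, hxB, hxU⟩
    refine ⟨j, ?_, (hAdj _ _ _).1 hj⟩
    rintro rfl
    have h1 := hpt2 Φ A j hA
    have h2 := hpt2 Φ B j hB
    apply hj.1
    apply X.inj
    funext k
    by_cases hk : k = j
    · subst hk
      rw [hXL, hXL, ← h1, ← h2]
    · exact hj.2 k hk
  · intro i Φ
    refine (X.lf {X.pt (Φ.F i)} isCompact_singleton).subset ?_
    intro Ψ hΨ
    refine ⟨X.pt (Φ.F i), ?_, rfl⟩
    have := hpt Ψ i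
    rw [show Ψ.F i = Φ.F i from hΨ] at this
    exact this
  · by_contra hcon
    rw [not_infinite_iff_finite] at hcon
    have h1 : IsCompact (⋃ Φ : Flg 𝒯, X.cell Φ) := isCompact_iUnion hcpt
    have h2 : (⋃ Φ : Flg 𝒯, X.cell Φ) = univ := by
      rw [eq_univ_iff_forall]
      intro x
      obtain ⟨Φ, hΦ⟩ := X.cov x
      exact mem_iUnion.2 ⟨Φ, hΦ⟩
    rw [h2] at h1
    have : Nontrivial (E d) := by
      have : Nonempty (Fin d) := ⟨⟨0, by omega⟩⟩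
      infer_instance
    exact noncompact_univ (E d) h1
  · intro W _ s nb h
    refine hsc d _ _ X hd W s nb ?_
    exact ⟨h.sq, fun i Φ => (hAdj _ _ _).2 (h.nbadj i Φ),
      fun i Φ Ψ hh => h.uniq i Φ Ψ ((hAdj _ _ _).1 hh), h.rel⟩

end TL
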