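import Pool.Agent.Helper22.TL.Spec

set_option autoImplicit false

namespace TL

open Set

theorem ri1_thm : S_RI1 := by
  intro d
  refine ⟨?_, ?_, ?_⟩
  · intro A F G x hF hGA hx hxF y hy
    obtain ⟨ε, hε, hz⟩ := hx.2 y hy
    refine hF.left_mem_of_mem_openSegment (hGA hy) (hGA hz) hxF ?_
    refine ⟨ε / (1 + ε), 1 / (1 + ε), by positivity, by positivity, by field_simp; ring, ?_⟩
    have h1 : (1 + ε) ≠ 0 := by positivity
    have : (ε / (1 + ε)) • y + (1 / (1 + ε)) • (x + ε • (x - y)) =
        ((ε / (1 + ε)) - (1 / (1 + ε)) * ε) • y + ((1 / (1 + ε)) + (1 / (1 + ε)) * ε) • x := by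
      module
    rw [this]
    have e1 : (ε / (1 + ε)) - (1 / (1 + ε)) * ε = 0 := by field_simp; ring
    have e2 : (1 / (1 + ε)) + (1 / (1 + ε)) * ε = 1 := by field_simp
    rw [e1, e2]
    simp
  · intro G a b t hG ha hb ht ht1
    refine ⟨hG ha.1 hb ht.le (by linarith) (by ring), ?_⟩
    intro y hy
    obtain ⟨δ, hδ, hz⟩ := ha.2 y hy
    -- choose ε with (1 + ε) t - ε (1 + δ) / δ ≥ 0
    refine ⟨t * δ / (1 + δ), by positivity, ?_⟩
    set ε := t * δ / (1 + δ) with hε
    have hd : (1 + δ) ≠ 0 := by positivity
    have hd' : δ ≠ 0 := hδ.ne'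
    have hε0 : 0 < ε := by positivity
    have hβ : 0 ≤ (1 + ε) * t - ε * (1 + δ) / δ := by
      have : ε * (1 + δ) / δ = t := by rw [hε]; field_simp
      rw [this]
      nlinarith
    have hconv : (ε / δ) • (a + δ • (a - y)) + (((1 + ε) * t - ε * (1 + δ) / δ) • a +
        ((1 + ε) * (1 - t)) • b) ∈ G := by
      by_cases h0 : (1 + ε) * t - ε * (1 + δ) / δ + (1 + ε) * (1 - t) = 0
      · have h1 : (1 + ε) * t - ε * (1 + δ) / δ = 0 := by
          have : 0 ≤ (1 + ε) * (1 - t) := by
            apply mul_nonneg <;> linarith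
          linarith
        have h2 : (1 + ε) * (1 - t) = 0 := by linarith
        have h3 : ε / δ = 1 := by
          have : (ε / δ) + ((1 + ε) * t - ε * (1 + δ) / δ + (1 + ε) * (1 - t)) = 1 := by
            field_simp; ring
          linarith
        rw [h1, h2, h3]
        simpa using hz
      · have := hG.sum_mem (t := Finset.univ)
          (w := ![ε / δ, (1 + ε) * t - ε * (1 + δ) / δ, (1 + ε) * (1 - t)])
          (z := ![a + δ • (a - y), a, b]) ?_ ?_ ?_
        · simpa [Fin.sum_univ_three, add_assoc] using this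
        · intro i _
          fin_cases i
          · simp only [Fin.zero_eta, Matrix.cons_val_zero]; positivity
          · simpa using hβ
          · simp only [Fin.reduceFinMk, Matrix.cons_val]
            apply mul_nonneg <;> linarith
        · simp only [Fin.sum_univ_three, Matrix.cons_val_zero, Matrix.cons_val_one,
            Matrix.cons_val]
          field_simp; ring
        · intro i _
          fin_cases i
          · exact hz
          · exact ha.1
          · exact hb
    have e : t • a + (1 - t) • b + ε • (t • a + (1 - t) • b - y) =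
        (ε / δ) • (a + δ • (a - y)) + (((1 + ε) * t - ε * (1 + δ) / δ) • a +
        ((1 + ε) * (1 - t)) • b) := by
      have c1 : (ε / δ) * δ = ε := by field_simp
      have c2 : (ε / δ) * (1 + δ) + ((1 + ε) * t - ε * (1 + δ) / δ) = (1 + ε) * t := by
        field_simp; ring
      calc t • a + (1 - t) • b + ε • (t • a + (1 - t) • b - y)
          = ((1 + ε) * t) • a + ((1 + ε) * (1 - t)) • b - ε • y := by module
        _ = ((ε / δ) * (1 + δ) + ((1 + ε) * t - ε * (1 + δ) / δ)) • a +
            ((1 + ε) * (1 - t)) • b - ((ε / δ) * δ) • y := by rw [c1, c2]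
        _ = _ := by module
    rw [e]
    exact hconv
  · intro T x hT hx
    refine ⟨{y | y ∈ T ∧ ∃ ε > (0 : ℝ), x + ε • (x - y) ∈ T}, ⟨⟨fun y hy => hy.1, ?_⟩, ?_⟩, ?_⟩
    · -- extreme
      rintro u hu v hv y ⟨hy, ε, hε, hp⟩ ⟨a, b, ha, hb, hab, rfl⟩
      refine ⟨hu, ?_⟩
      -- x = (p + ε (a u + b v)) / (1 + ε)
      set p := x + ε • (x - (a • u + b • v)) with hpdef
      have hw : ε * a < 1 + ε := by nlinarith
      have hpos : 0 < 1 + ε - ε * a := by linarith
      refine ⟨ε * a / (1 + ε - ε * a), by positivity, ?_⟩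
      have hq : (1 / (1 + ε - ε * a)) • p + (ε * b / (1 + ε - ε * a)) • v ∈ T := by
        apply hT hp hv (by positivity) (by positivity)
        have : b = 1 - a := by linarith
        rw [this]
        field_simp
        ring
      have e : x + (ε * a / (1 + ε - ε * a)) • (x - u) =
          (1 / (1 + ε - ε * a)) • p + (ε * b / (1 + ε - ε * a)) • v := by
        rw [hpdef]
        have c1 : 1 + ε * a / (1 + ε - ε * a) = (1 / (1 + ε - ε * a)) * (1 + ε) := by
          field_simp; ring
        calc x + (ε * a / (1 + ε - ε * a)) • (x - u)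
            = (1 + ε * a / (1 + ε - ε * a)) • x - (ε * a / (1 + ε - ε * a)) • u := by module
          _ = ((1 / (1 + ε - ε * a)) * (1 + ε)) • x - (ε * a / (1 + ε - ε * a)) • u := by rw [c1]
          _ = _ := by module
      rw [e]
      exact hq
    · -- convex
      rintro y ⟨hy, ε, hε, hp⟩ z ⟨hz, δ, hδ, hq⟩ a b ha hb hab
      refine ⟨hT hy hz ha hb hab, ?_⟩
      have key : ∀ (w : E d) (η η' : ℝ), 0 < η → 0 ≤ η' → η' ≤ η → x + η • (x - w) ∈ T →
          x + η' • (x - w) ∈ T := by
        intro w η η' h1 h2 h3 h4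
        have := hT h4 hx (show 0 ≤ η' / η by positivity) (show 0 ≤ 1 - η' / η by
          rw [sub_nonneg, div_le_one h1]; exact h3) (by ring)
        have e : (η' / η) • (x + η • (x - w)) + (1 - η' / η) • x = x + η' • (x - w) := by
          have : η' / η * η = η' := by field_simp
          calc (η' / η) • (x + η • (x - w)) + (1 - η' / η) • x
              = x + (η' / η * η) • (x - w) := by module
            _ = _ := by rw [this]
        rwa [e] at this
      refine ⟨min ε δ, lt_min hε hδ, ?_⟩
      have h1 := key y ε (min ε δ) hε (lt_min hε hδ).le (min_le_left _ _) hp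
      have h2 := key z δ (min ε δ) hδ (lt_min hε hδ).le (min_le_right _ _) hq
      have h3 := hT h1 h2 ha hb hab
      have e : a • (x + min ε δ • (x - y)) + b • (x + min ε δ • (x - z)) =
          (a + b) • x + min ε δ • ((a + b) • x - (a • y + b • z)) := by module
      rw [e, hab, one_smul] at h3
      exact h3
    · -- x in ri
      refine ⟨⟨hx, 1, one_pos, by simpa using hx⟩, ?_⟩
      rintro y ⟨hy, ε, hε, hz⟩
      refine ⟨ε, hε, hz, 1 / ε, by positivity, ?_⟩
      have : x + (1 / ε) • (x - (x + ε • (x - y))) = y := by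
        have h1 : 1 / ε * ε = 1 := by field_simp
        calc x + (1 / ε) • (x - (x + ε • (x - y))) = x - (1 / ε * ε) • (x - y) := by module
          _ = y := by rw [h1]; module
      rw [this]
      exact hy

end TL
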