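import Pool.Agent.Helper22.TL.Spec

set_option autoImplicit false

namespace TL

open Set

/-- a face of the convex hull of `s` is the convex hull of the points of `s` in it -/
theorem face_eq {d : ℕ} (s : Finset (E d)) (F : Set (E d))
    (hF : IsFace (convexHull ℝ (s : Set (E d))) F) [DecidablePred (· ∈ F)] :
    F = convexHull ℝ ((s.filter (· ∈ F) : Finset (E d)) : Set (E d)) := by
  apply Subset.antisymm
  · intro x hx
    have hx' := hF.1.subset hx
    rw [Finset.mem_convexHull] at hx'
    obtain ⟨w, hw0, hw1, hwx⟩ := hx'
    -- points with positive weight are in F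
    have hpos : ∀ v ∈ s, 0 < w v → v ∈ F := by
      intro v hv hvp
      by_cases h1 : w v = 1
      · -- x = v
        have h0 : ∀ u ∈ s, u ≠ v → w u = 0 := by
          intro u hu huv
          have h2 : ∑ z ∈ s.erase v, w z = 0 := by
            have := Finset.add_sum_erase s w hv
            linarith
          have h3 := (Finset.sum_eq_zero_iff_of_nonneg (fun z hz => hw0 z
            (Finset.mem_of_mem_erase hz))).1 h2
          exact h3 u (Finset.mem_erase.2 ⟨huv, hu⟩)
        have hxv : x = v := by
          rw [← hwx, Finset.centerMass_eq_of_sum_1 _ _ hw1]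
          rw [Finset.sum_eq_single v]
          · simp [h1]
          · intro u hu huv
            simp [h0 u hu huv]
          · intro h; exact absurd hv h
        rwa [← hxv]
      · have hlt : w v < 1 := by
          have : w v ≤ ∑ z ∈ s, w z := Finset.single_le_sum (fun z hz => hw0 z hz) hv
          rw [hw1] at this
          exact lt_of_le_of_ne this h1
        -- rest
        have hsum : ∑ z ∈ s.erase v, w z = 1 - w v := by
          have := Finset.add_sum_erase s w hv
          linarith
        set y : E d := (s.erase v).centerMass w id with hy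
        have hyT : y ∈ convexHull ℝ (s : Set (E d)) := by
          apply Finset.centerMass_mem_convexHull
          · intro z hz; exact hw0 z (Finset.mem_of_mem_erase hz)
          · rw [hsum]; linarith
          · intro z hz; exact Finset.mem_of_mem_erase hz
        refine hF.1.left_mem_of_mem_openSegment (subset_convexHull ℝ _ hv) hyT hx ?_
        refine ⟨w v, 1 - w v, hvp, by linarith, by ring, ?_⟩
        rw [hy, Finset.centerMass, hsum, smul_smul, mul_inv_cancel₀ (by linarith), one_smul,
          ← hwx, Finset.centerMass_eq_of_sum_1 _ _ hw1]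
        exact Finset.add_sum_erase s (fun z => w z • id z) hv
    rw [Finset.mem_convexHull]
    refine ⟨w, fun v hv => hw0 v (Finset.mem_of_mem_filter v hv), ?_, ?_⟩
    · rw [← hw1]
      apply Finset.sum_subset (Finset.filter_subset _ _)
      intro v hv hv'
      by_contra h
      exact hv' (Finset.mem_filter.2 ⟨hv, hpos v hv (lt_of_le_of_ne (hw0 v hv) (Ne.symm h))⟩)
    · have hsub : ∑ v ∈ s.filter (· ∈ F), w v = ∑ v ∈ s, w v := by
        apply Finset.sum_subset (Finset.filter_subset _ _)
        intro v hv hv'
        by_contra h
        exact hv' (Finset.mem_filter.2 ⟨hv, hpos v hv (lt_of_le_of_ne (hw0 v hv) (Ne.symm h))⟩)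
      rw [Finset.centerMass_eq_of_sum_1 _ _ (by rw [hsub, hw1]), ← hwx,
        Finset.centerMass_eq_of_sum_1 _ _ hw1]
      apply Finset.sum_subset (Finset.filter_subset _ _)
      intro v hv hv'
      have : w v = 0 := by
        by_contra h
        exact hv' (Finset.mem_filter.2 ⟨hv, hpos v hv (lt_of_le_of_ne (hw0 v hv) (Ne.symm h))⟩)
      simp [this]
  · apply convexHull_min _ hF.2
    intro v hv
    exact (Finset.mem_filter.1 hv).2

theorem ri2_thm : S_RI2 := by
  classical
  intro d
  refine ⟨?_, ?_⟩
  · rintro T F ⟨⟨s, rfl⟩, -⟩ hF hne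
    obtain ⟨t, hFs⟩ : ∃ t : Finset (E d), F = convexHull ℝ (t : Set (E d)) :=
      ⟨_, face_eq s F hF⟩
    clear hF
    have htne : t.Nonempty := by
      by_contra h
      rw [Finset.not_nonempty_iff_eq_empty] at h
      rw [h] at hFs
      simp only [Finset.coe_empty, convexHull_empty] at hFs
      exact hne.ne_empty hFs
    refine ⟨t, htne, hFs, ?_⟩
    have hn : (0 : ℝ) < t.card := by exact_mod_cast htne.card_pos
    have hcen : t.centroid ℝ id = ∑ v ∈ t, ((t.card : ℝ)⁻¹) • v := by
      rw [Finset.centroid_def, Finset.affineCombination_eq_linear_combination _ _ _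
        (t.sum_centroidWeights_eq_one_of_nonempty ℝ htne)]
      simp [Finset.centroidWeights_apply]
    refine ⟨?_, ?_⟩
    · rw [hFs, hcen]
      apply (convex_convexHull ℝ _).sum_mem
      · intro v _; positivity
      · rw [Finset.sum_const, nsmul_eq_mul, mul_inv_cancel₀ hn.ne']
      · intro v hv; exact subset_convexHull ℝ _ hv
    · intro y hy
      rw [hFs, Finset.mem_convexHull'] at hy
      obtain ⟨b, hb0, hb1, hby⟩ := hy
      have hble : ∀ v ∈ t, b v ≤ 1 := by
        intro v hv
        rw [← hb1]
        exact Finset.single_le_sum (fun z hz => hb0 z hz) hv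
      refine ⟨(t.card : ℝ)⁻¹, by positivity, ?_⟩
      rw [hcen, ← hby, hFs]
      set n := (t.card : ℝ)⁻¹ with hndef
      have hn0 : 0 < n := by positivity
      have e : ∑ v ∈ t, n • v + n • (∑ v ∈ t, n • v - ∑ v ∈ t, b v • v) =
          ∑ v ∈ t, (n + n * n - n * b v) • v := by
        rw [← Finset.sum_sub_distrib, Finset.smul_sum, ← Finset.sum_add_distrib]
        apply Finset.sum_congr rfl
        intro v _
        module
      rw [e]
      apply (convex_convexHull ℝ _).sum_mem
      · intro v hv
        have := hble v hv
        nlinarith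
      · rw [Finset.sum_sub_distrib, ← Finset.mul_sum, hb1, Finset.sum_const, nsmul_eq_mul]
        have : (t.card : ℝ) * n = 1 := mul_inv_cancel₀ hn.ne'
        linear_combination (1 + n) * this
      · intro v hv; exact subset_convexHull ℝ _ hv
  · rintro T ⟨⟨s, rfl⟩, -⟩
    apply Set.Finite.subset ((s.powerset.image (fun t : Finset (E d) =>
      convexHull ℝ (t : Set (E d)))).finite_toSet)
    intro F hF
    rw [Finset.mem_coe, Finset.mem_image]
    exact ⟨s.filter (· ∈ F), Finset.mem_powerset.2 (Finset.filter_subset _ _),
      (face_eq s F hF).symm⟩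

end TL
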