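import Pool.Agent.Helper22.TL.Defs
import Pool.Agent.Helper22.TL.Tits

set_option autoImplicit false

/-! # TL: statements of the parts. `S_X : Prop` is the statement of part `X`. -/

namespace TL

open Set

/-! ## P: convex polytopes and tilings -/

/-- Basic facts on `ri`, arbitrary convex sets. -/
def S_RI1 : Prop := ∀ (d : ℕ),
  (∀ (A F G : Set (E d)) (x : E d), IsExtreme ℝ A F → G ⊆ A → x ∈ ri G → x ∈ F → G ⊆ F) ∧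
  (∀ (G : Set (E d)) (a b : E d) (t : ℝ), Convex ℝ G → a ∈ ri G → b ∈ G → 0 < t → t ≤ 1 →
    t • a + (1 - t) • b ∈ ri G) ∧
  (∀ (T : Set (E d)) (x : E d), Convex ℝ T → x ∈ T → ∃ F, IsFace T F ∧ x ∈ ri F)

/-- Basic facts on faces of polytopes. -/
def S_RI2 : Prop := ∀ (d : ℕ),
  (∀ (T F : Set (E d)), IsPoly T → IsFace T F → F.Nonempty →
    ∃ s : Finset (E d), s.Nonempty ∧ F = convexHull ℝ (s : Set (E d)) ∧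
      s.centroid ℝ id ∈ ri F) ∧
  (∀ (T : Set (E d)), IsPoly T → {F | IsFace T F}.Finite)

/-- Faces of different tiles. -/
def S_GLOB : Prop := ∀ (d : ℕ) (𝒯 : Set (Set (E d))), LFC 𝒯 →
  (∀ (F G : Set (E d)) (x : E d), Fc 𝒯 F → Fc 𝒯 G → x ∈ ri F → x ∈ G → F ⊆ G ∧ IsFace G F) ∧
  (∀ (F G : Set (E d)), Fc 𝒯 F → Fc 𝒯 G → F ⊆ G → IsFace G F) ∧
  (∀ (F G : Set (E d)), Fc 𝒯 F → Fc 𝒯 G → (F ∩ G).Nonempty → Fc 𝒯 (F ∩ G)) ∧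
  (∀ F, Fc 𝒯 F → IsCompact F ∧ Convex ℝ F ∧ (ri F).Nonempty) ∧
  (∀ x : E d, ∃ F, Fc 𝒯 F ∧ x ∈ ri F) ∧
  {F | Fc 𝒯 F}.Countable ∧
  (∀ K : Set (E d), IsCompact K → {F | Fc 𝒯 F ∧ (F ∩ K).Nonempty}.Finite)

/-- Uniqueness of the barycentric representation along chains of faces. -/
def S_T3 : Prop := ∀ (d : ℕ) (𝒯 : Set (Set (E d))), LFC 𝒯 → ∀ c : Set (E d) → E d,
  (∀ F, Fc 𝒯 F → c F ∈ ri F) → ∀ (C C' : Finset (Set (E d))) (a b : Set (E d) → ℝ),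
  (∀ F ∈ C, Fc 𝒯 F) → (∀ F ∈ C', Fc 𝒯 F) → IsChain (· ⊆ ·) (C : Set (Set (E d))) →
  IsChain (· ⊆ ·) (C' : Set (Set (E d))) → (∀ F ∈ C, 0 < a F) → (∀ F ∈ C', 0 < b F) →
  ∑ F ∈ C, a F = 1 → ∑ F ∈ C', b F = 1 → ∑ F ∈ C, a F • c F = ∑ F ∈ C', b F • c F →
  C = C' ∧ ∀ F ∈ C, a F = b F

/-- Existence of the barycentric representation. -/
def S_COV : Prop := ∀ (d : ℕ) (𝒯 : Set (Set (E d))), LFC 𝒯 → ∀ c : Set (E d) → E d,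
  (∀ F, Fc 𝒯 F → c F ∈ ri F) → ∀ x : E d, ∃ (C : Finset (Set (E d))) (a : Set (E d) → ℝ),
  (∀ F ∈ C, Fc 𝒯 F) ∧ IsChain (· ⊆ ·) (C : Set (Set (E d))) ∧ (∀ F ∈ C, 0 < a F) ∧
  ∑ F ∈ C, a F = 1 ∧ ∑ F ∈ C, a F • c F = x

/-- Dimension of faces. -/
def S_DIM1 : Prop := ∀ (d : ℕ) (𝒯 : Set (Set (E d))), LFC 𝒯 →
  ∀ F G, Fc 𝒯 F → Fc 𝒯 G → F ⊂ G → (∀ x ∈ ri G, x ∉ affineSpan ℝ F) ∧
    Module.finrank ℝ (vectorSpan ℝ F) < Module.finrank ℝ (vectorSpan ℝ G)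

/-- Flags and dimension. -/
def S_DIM : Prop := ∀ (d : ℕ) (𝒯 : Set (Set (E d))), LFC 𝒯 →
  (∀ (n : ℕ) (F : Fin n → Set (E d)) (c : Set (E d) → E d), (∀ i, Fc 𝒯 (F i)) → StrictMono F →
    (∀ i, c (F i) ∈ ri (F i)) → AffineIndependent ℝ (fun i => c (F i)) ∧ n ≤ d + 1) ∧
  (∀ (Φ : Flg 𝒯) (i : Fin (d + 1)), Module.finrank ℝ (vectorSpan ℝ (Φ.F i)) = i) ∧
  (∀ Φ : Flg 𝒯, Φ.F (Fin.last d) ∈ 𝒯)

/-- Zorn: chains of faces are contained in flags of the face poset. -/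
def S_EXT : Prop := ∀ (d : ℕ) (𝒯 : Set (Set (E d))), 1 ≤ d → LFC 𝒯 →
  (∀ C : Set (Set (E d)), (∀ F ∈ C, Fc 𝒯 F) → IsChain (· ⊆ ·) C →
    ∃ c : Set (FP 𝒯), IsMaxChain (· ≤ ·) c ∧ ∀ F ∈ C, ∃ x ∈ c, x.1 = F) ∧
  (∀ c : Set (FP 𝒯), IsMaxChain (· ≤ ·) c → ∃ C : Finset (Set (E d)),
    (∀ F, F ∈ C ↔ (F.Nonempty ∧ F ≠ univ ∧ ∃ x ∈ c, x.1 = F)) ∧ (∀ F ∈ C, Fc 𝒯 F) ∧
    C.card + 2 = c.ncard ∧ c.Finite ∧ C.card ≤ d + 1)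

/-- In a combinatorially regular tiling every chain of faces is contained in a full flag. -/
def S_FULL : Prop := ∀ (d : ℕ) (𝒯 : Set (Set (E d))), 1 ≤ d → LFC 𝒯 → CombReg 𝒯 →
  ∀ C : Set (Set (E d)), (∀ F ∈ C, Fc 𝒯 F) → IsChain (· ⊆ ·) C →
    ∃ Φ : Flg 𝒯, ∀ F ∈ C, ∃ i, Φ.F i = F

/-- The automorphism group acts on the full flags, transitively if `CombReg`; full flags are
maximal chains. -/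
def S_ACT : Prop := ∀ (d : ℕ) (𝒯 : Set (Set (E d))), 1 ≤ d → LFC 𝒯 →
  (∀ (e : Au 𝒯) (Φ : Flg 𝒯), ∃ Ψ : Flg 𝒯, ∀ i, e (Φ.el i) = Ψ.el i) ∧
  (∀ Φ : Flg 𝒯, IsMaxChain (· ≤ ·) {x : FP 𝒯 | x.1 = ∅ ∨ x.1 = univ ∨ ∃ i, x = Φ.el i}) ∧
  (CombReg 𝒯 → ∀ Φ Ψ : Flg 𝒯, ∃ e : Au 𝒯, ∀ i, e (Φ.el i) = Ψ.el i)

/-- The barycentric subdivision as a colored triangulation. -/
def S_CX : Prop := ∀ (d : ℕ) (𝒯 : Set (Set (E d))), 1 ≤ d → LFC 𝒯 → CombReg 𝒯 →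
  ∃ X : Cx d (Flg 𝒯) (Set (E d)), (∀ Φ, X.L Φ = Φ.F) ∧ ∀ F, Fc 𝒯 F → X.pt F ∈ ri F

/-! ## B: colored triangulations -/

/-- Complement of countably many affine subspaces of codimension two. -/
def S_CONN : Prop := ∀ (d : ℕ) (U : Set (E d)) (ι : Type) (A : ι → AffineSubspace ℝ (E d)),
  Countable ι → IsOpen U → Convex ℝ U →
  (∀ n, Module.finrank ℝ (A n).direction + 2 ≤ d) →
  IsPreconnected (U \ ⋃ n, (A n : Set (E d))) ∧ (U.Nonempty → (U \ ⋃ n, (A n : Set (E d))).Nonempty)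

/-- Barycentric coordinates: cells, interiors, closedness, skeleta. -/
def S_CELL : Prop := ∀ (d : ℕ) (Fl V : Type) (X : Cx d Fl V), Countable Fl ∧
  (∀ Φ x, x ∈ X.cell Φ ↔ ∃ a : Fin (d + 1) → ℝ, (∀ i, 0 ≤ a i) ∧ ∑ i, a i = 1 ∧
    x = ∑ i, a i • X.pt (X.L Φ i)) ∧
  (∀ Φ x, x ∈ interior (X.cell Φ) ↔ ∃ a : Fin (d + 1) → ℝ, (∀ i, 0 < a i) ∧ ∑ i, a i = 1 ∧
    x = ∑ i, a i • X.pt (X.L Φ i)) ∧
  (∀ Φ, X.cell Φ ⊆ closure (interior (X.cell Φ))) ∧ (∀ Φ, (interior (X.cell Φ)).Nonempty) ∧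
  (∀ Φ, IsCompact (X.cell Φ)) ∧
  (∀ Φ Ψ, (interior (X.cell Φ) ∩ X.cell Ψ).Nonempty → Φ = Ψ) ∧
  (∀ x, ∃ ε > 0, ∀ Φ, (X.cell Φ ∩ Metric.ball x ε).Nonempty → x ∈ X.cell Φ) ∧
  (∀ 𝒜 : Set Fl, IsClosed (⋃ Φ ∈ 𝒜, X.cell Φ)) ∧
  (∀ k, IsClosed (X.skel k)) ∧
  (∀ k, ∃ (ι : Type) (A : ι → AffineSubspace ℝ (E d)), Countable ι ∧
    (∀ n, Module.finrank ℝ (A n).direction + k ≤ d) ∧
    X.skel k ⊆ ⋃ n, (A n : Set (E d)))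

/-- Every wall belongs to exactly two chambers. -/
def S_WALL : Prop := ∀ (d : ℕ) (Fl V : Type) (X : Cx d Fl V), 1 ≤ d →
  ∀ (Φ : Fl) (i : Fin (d + 1)), ∃! Ψ, X.Adj i Φ Ψ

/-- Chambers meeting a convex open set are connected by galleries in this set. -/
def S_UCON : Prop := ∀ (d : ℕ) (Fl V : Type) (X : Cx d Fl V), 1 ≤ d →
  ∀ U : Set (E d), IsOpen U → Convex ℝ U → ∀ Φ Ψ : Fl, (X.cell Φ ∩ U).Nonempty →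
    (X.cell Ψ ∩ U).Nonempty →
    Relation.ReflTransGen (fun A B => (X.cell A ∩ X.cell B ∩ U).Nonempty ∧ ∃ i, X.Adj i A B) Φ Ψ

/-- Local sections outside the skeleton of codimension three. -/
def S_LOC2 : Prop := ∀ (d : ℕ) (Fl V : Type) (X : Cx d Fl V), 2 ≤ d →
  ∀ (W : Type) [Group W] (s : Fin (d + 1) → W) (nb : Fin (d + 1) → Fl → Fl),
  SCHyp X.Adj W s nb → ∀ x, x ∉ X.skel 3 → ∀ Φ, x ∈ X.cell Φ → ∀ w : W,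
    ∃! f : Fl → W, f ∈ X.Sec s nb x ∧ f Φ = w

/-- Monodromy in star-shaped sets. -/
def S_MON : Prop := ∀ (d : ℕ) (Y : Type) (N : Set (E d)) (o : E d), o ∈ N →
  (∀ x ∈ N, segment ℝ o x ⊆ N) → ∀ (S : E d → Set Y) (r : E d → Y → Y),
  (∀ x ∈ N, ∃ ε > (0 : ℝ), ∀ y ∈ N, dist y x < ε → BijOn (r y) (S x) (S y)) →
  (∀ x ∈ N, ∃ ε > (0 : ℝ), ∀ y ∈ N, dist y x < ε → ∃ δ > (0 : ℝ), ∀ z ∈ N, dist z y < δ →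
    ∀ f ∈ S x, r z (r y f) = r z f) → ∀ g ∈ S o,
  ∃ σ : E d → Y, σ o = g ∧ ∀ x ∈ N, σ x ∈ S x ∧ ∃ ε > (0 : ℝ), ∀ y ∈ N, dist y x < ε →
    σ y = r y (σ x)

/-- Generic points: the set of the points visible from `o`. -/
def S_GEN : Prop := ∀ (d : ℕ) (Fl V : Type) (X : Cx d Fl V), 2 ≤ d →
  ∀ (Φ₀ : Fl) (o : E d), o ∈ interior (X.cell Φ₀) →
  IsOpen {x | Disjoint (segment ℝ o x) (X.skel 3)} ∧
  Disjoint (segment ℝ o o) (X.skel 3) ∧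
  (∀ Φ, IsPreconnected (interior (X.cell Φ) ∩ {x | Disjoint (segment ℝ o x) (X.skel 3)}) ∧
    (interior (X.cell Φ) ∩ {x | Disjoint (segment ℝ o x) (X.skel 3)}).Nonempty) ∧
  (∀ Φ Ψ i, X.Adj i Φ Ψ →
    (X.cell Φ ∩ X.cell Ψ ∩ {x | Disjoint (segment ℝ o x) (X.skel 3)}).Nonempty)

/-- Simple connectivity. -/
def S_SC : Prop := ∀ (d : ℕ) (Fl V : Type) (X : Cx d Fl V), 2 ≤ d →
  ∀ (W : Type) [Group W] (s : Fin (d + 1) → W) (nb : Fin (d + 1) → Fl → Fl),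
  SCHyp X.Adj W s nb → ∃ f : Fl → W, ∀ Φ i, f (nb i Φ) = f Φ * s i

/-- Everything together. -/
def S_NICE : Prop := ∀ (d : ℕ) (𝒯 : Set (Set (E d))), 2 ≤ d → LFC 𝒯 → CombReg 𝒯 → Nice 𝒯

/-! ## K: the automorphism group -/

/-- Only the identity fixes a flag. -/
def S_KFREE : Prop := ∀ (d : ℕ) (𝒯 : Set (Set (E d))), 2 ≤ d → Nice 𝒯 →
  ∀ (Φ : Flg 𝒯) (e : Au 𝒯), (∀ i, e (Φ.el i) = Φ.el i) → e = 1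

/-- The generators exist; they are involutions and generate, and the stabilisers of the faces of
the base flag are generated by the others. -/
def S_KGEN : Prop := ∀ (d : ℕ) (𝒯 : Set (Set (E d))), 2 ≤ d → Nice 𝒯 →
  Nonempty (Flg 𝒯) ∧ ∀ Φ : Flg 𝒯, (∃ ρ, TG 𝒯 Φ ρ) ∧ ∀ ρ, TG 𝒯 Φ ρ →
    Subgroup.closure (range ρ) = ⊤ ∧ (∀ i, ρ i * ρ i = 1) ∧
    (∀ (i : Fin (d + 1)) (g : Au 𝒯), g (Φ.el i) = Φ.el i →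
      g ∈ Subgroup.closure (ρ '' {j | j ≠ i}))

/-- Orders of the products. -/
def S_KORD : Prop := ∀ (d : ℕ) (𝒯 : Set (Set (E d))), 2 ≤ d → Nice 𝒯 →
  ∀ (Φ : Flg 𝒯) (ρ : Fin (d + 1) → Au 𝒯), TG 𝒯 Φ ρ →
    (∀ i j : Fin (d + 1), (i : ℕ) + 2 ≤ j → orderOf (ρ i * ρ j) = 2) ∧
    (∀ i j : Fin (d + 1), (i : ℕ) + 1 = j → 3 ≤ orderOf (ρ i * ρ j))

/-- Finite parabolics, infinite group. -/
def S_KFIN : Prop := ∀ (d : ℕ) (𝒯 : Set (Set (E d))), 2 ≤ d → Nice 𝒯 →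
  ∀ (Φ : Flg 𝒯) (ρ : Fin (d + 1) → Au 𝒯), TG 𝒯 Φ ρ →
    (∀ i, Finite (Subgroup.closure (ρ '' {j | j ≠ i}))) ∧ Infinite (Au 𝒯)

/-- Universal property. -/
def S_KUP : Prop := ∀ (d : ℕ) (𝒯 : Set (Set (E d))), 2 ≤ d → Nice 𝒯 →
  ∀ (Φ : Flg 𝒯) (ρ : Fin (d + 1) → Au 𝒯), TG 𝒯 Φ ρ →
  ∀ (W : Type) [Group W] (s : Fin (d + 1) → W), (∀ i, s i * s i = 1) →
    (∀ i j, i ≠ j → ∀ m : ℕ, (ρ i * ρ j) ^ m = 1 → (s i * s j) ^ m = 1) →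
    ∃ f : Au 𝒯 →* W, ∀ i, f (ρ i) = s i

/-- Normality gives polynomial growth. -/
def S_KGROW : Prop := ∀ (d : ℕ) (𝒯 : Set (Set (E d))), 2 ≤ d → Nice 𝒯 → Normal 𝒯 →
  ∀ (Φ : Flg 𝒯) (ρ : Fin (d + 1) → Au 𝒯), TG 𝒯 Φ ρ → PG ρ

/-- The face poset is determined by the group. -/
def S_KREC : Prop := ∀ (d : ℕ) (𝒯 𝒯' : Set (Set (E d))), 2 ≤ d → Nice 𝒯 → Nice 𝒯' →
  ∀ (Φ : Flg 𝒯) (Φ' : Flg 𝒯') (ρ : Fin (d + 1) → Au 𝒯) (ρ' : Fin (d + 1) → Au 𝒯'),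
  TG 𝒯 Φ ρ → TG 𝒯' Φ' ρ' → ∀ θ : Au 𝒯 ≃* Au 𝒯', (∀ i, θ (ρ i) = ρ' i) →
    Nonempty (FP 𝒯 ≃o FP 𝒯')

/-! ## D: Coxeter groups -/

/-- `Good` groups are Coxeter groups. -/
def S_COX : Prop := ∀ (d : ℕ) (G : Type) [Group G] (ρ : Fin (d + 1) → G), Good d G ρ →
  ∃ (M : CoxeterMatrix (Fin (d + 1))) (cs : CoxeterSystem M G), (∀ i, cs.simple i = ρ i) ∧
    ∀ i j, M i j = orderOf (ρ i * ρ j)

/-- The form of a finite parabolic is positive definite. -/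
def S_PD : Prop := ∀ (d : ℕ) (G : Type) [Group G] (ρ : Fin (d + 1) → G), Good d G ρ →
  ∀ v : ℕ → ℝ, (∃ k ≤ d, v k = 0) → (∃ k ≤ d, v k ≠ 0) → 0 < Q d (pp ρ) v

/-- Infinite Coxeter groups do not have a positive definite form. -/
def S_TF : Prop := ∀ (d : ℕ) (G : Type) [Group G] (ρ : Fin (d + 1) → G), Good d G ρ →
  ∃ v : ℕ → ℝ, (∃ k ≤ d, v k ≠ 0) ∧ Q d (pp ρ) v ≤ 0

/-- Numerical classification, `d = 3`. -/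
def S_NUM3 : Prop := ∀ p : ℕ → ℕ, (∀ i < 3, 3 ≤ p i) →
  (∀ v : ℕ → ℝ, (∃ k ≤ 3, v k = 0) → (∃ k ≤ 3, v k ≠ 0) → 0 < Q 3 p v) →
  (∃ v : ℕ → ℝ, (∃ k ≤ 3, v k ≠ 0) ∧ Q 3 p v ≤ 0) → Cub 3 p ∨ Hyp 3 p

/-- Numerical classification, `d = 4`. -/
def S_NUM4 : Prop := ∀ p : ℕ → ℕ, (∀ i < 4, 3 ≤ p i) →
  (∀ v : ℕ → ℝ, (∃ k ≤ 4, v k = 0) → (∃ k ≤ 4, v k ≠ 0) → 0 < Q 4 p v) →
  (∃ v : ℕ → ℝ, (∃ k ≤ 4, v k ≠ 0) ∧ Q 4 p v ≤ 0) →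
  Cub 4 p ∨ (∀ i < 4, p i = if i = 1 then 4 else 3) ∨ (∀ i < 4, p i = if i = 2 then 4 else 3) ∨
    Hyp 4 p

/-- Numerical classification, `d ≥ 5`. -/
def S_NUM5 : Prop := ∀ (d : ℕ) (p : ℕ → ℕ), 5 ≤ d → (∀ i < d, 3 ≤ p i) →
  (∀ v : ℕ → ℝ, (∃ k ≤ d, v k = 0) → (∃ k ≤ d, v k ≠ 0) → 0 < Q d p v) →
  (∃ v : ℕ → ℝ, (∃ k ≤ d, v k ≠ 0) ∧ Q d p v ≤ 0) → Cub d p

open TL.Geo in
/-- the bilinear form of a Coxeter matrix -/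
noncomputable def bb {B : Type} [Fintype B] (M : CoxeterMatrix B) (u v : B → ℝ) : ℝ :=
  ∑ i, ∑ j, -cc M i j * u i * v j

open TL.Geo in
/-- Ping-pong: three pairwise ultraparallel reflections give exponential growth. -/
def S_PING : Prop := ∀ (n : ℕ) (G : Type) [Group G] (M : CoxeterMatrix (Fin n))
  (cs : CoxeterSystem M G) (ω : Fin 3 → List (Fin n)) (ι : Fin 3 → Fin n),
  (∀ k l, k ≠ l → bb M (geo cs (cs.wordProd (ω k)) (ee (ι k)))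
    (geo cs (cs.wordProd (ω l)) (ee (ι l))) ≤ -1) →
  (∀ k, 0 < ∑ i, geo cs (cs.wordProd (ω k)) (ee (ι k)) i) → ¬ PG cs.simple

/-- `{3,5,3}` -/
def S_H353 : Prop := ∀ (G : Type) [Group G] (M : CoxeterMatrix (Fin 4)) (cs : CoxeterSystem M G),
  M 0 1 = 3 → M 1 2 = 5 → M 2 3 = 3 → M 0 2 = 2 → M 0 3 = 2 → M 1 3 = 2 → ¬ PG cs.simple

/-- `{4,3,5}` -/
def S_H435 : Prop := ∀ (G : Type) [Group G] (M : CoxeterMatrix (Fin 4)) (cs : CoxeterSystem M G),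
  M 0 1 = 4 → M 1 2 = 3 → M 2 3 = 5 → M 0 2 = 2 → M 0 3 = 2 → M 1 3 = 2 → ¬ PG cs.simple

/-- `{5,3,5}` -/
def S_H535 : Prop := ∀ (G : Type) [Group G] (M : CoxeterMatrix (Fin 4)) (cs : CoxeterSystem M G),
  M 0 1 = 5 → M 1 2 = 3 → M 2 3 = 5 → M 0 2 = 2 → M 0 3 = 2 → M 1 3 = 2 → ¬ PG cs.simple

/-- `{3,3,3,5}` -/
def S_H3335 : Prop := ∀ (G : Type) [Group G] (M : CoxeterMatrix (Fin 5)) (cs : CoxeterSystem M G),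
  M 0 1 = 3 → M 1 2 = 3 → M 2 3 = 3 → M 3 4 = 5 → M 0 2 = 2 → M 0 3 = 2 → M 0 4 = 2 →
  M 1 3 = 2 → M 1 4 = 2 → M 2 4 = 2 → ¬ PG cs.simple

/-- `{4,3,3,5}` -/
def S_H4335 : Prop := ∀ (G : Type) [Group G] (M : CoxeterMatrix (Fin 5)) (cs : CoxeterSystem M G),
  M 0 1 = 4 → M 1 2 = 3 → M 2 3 = 3 → M 3 4 = 5 → M 0 2 = 2 → M 0 3 = 2 → M 0 4 = 2 →
  M 1 3 = 2 → M 1 4 = 2 → M 2 4 = 2 → ¬ PG cs.simple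

/-- `{5,3,3,5}` -/
def S_H5335 : Prop := ∀ (G : Type) [Group G] (M : CoxeterMatrix (Fin 5)) (cs : CoxeterSystem M G),
  M 0 1 = 5 → M 1 2 = 3 → M 2 3 = 3 → M 3 4 = 5 → M 0 2 = 2 → M 0 3 = 2 → M 0 4 = 2 →
  M 1 3 = 2 → M 1 4 = 2 → M 2 4 = 2 → ¬ PG cs.simple

/-- No hyperbolic symbol. -/
def S_HYP : Prop := ∀ (d : ℕ) (G : Type) [Group G] (ρ : Fin (d + 1) → G), Good d G ρ → PG ρ →
  ¬ Hyp d (pp ρ)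

/-! ## V: the regular tilings -/

/-- Voronoi tilings of locally finite, relatively dense sets are LFC; symmetries. -/
def S_VOR : Prop := ∀ (d : ℕ) (X : Set (E d)), 1 ≤ d →
  (∀ K : Set (E d), IsCompact K → (X ∩ K).Finite) → (∃ R : ℝ, ∀ x, ∃ a ∈ X, dist x a ≤ R) →
  LFC (vor X) ∧ ∀ φ : E d ≃ᵢ E d, φ '' X = X → ∀ T : Set (E d), φ '' T ∈ vor X ↔ T ∈ vor X

/-- The induced automorphisms of the face poset. -/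
def S_IND : Prop := ∀ (d : ℕ) (𝒯 : Set (Set (E d))) (Γ : Subgroup (E d ≃ᵢ E d)),
  (∀ φ ∈ Γ, ∀ T : Set (E d), φ '' T ∈ 𝒯 ↔ T ∈ 𝒯) →
  ∃ f : Γ →* Au 𝒯, ∀ (φ : Γ) (x : FP 𝒯), (f φ x).1 = (φ : E d ≃ᵢ E d) '' x.1

/-- Centres of faces, equivariant under symmetries. -/
def S_CEN : Prop := ∀ (d : ℕ) (𝒯 : Set (Set (E d))), LFC 𝒯 → ∃ c : Set (E d) → E d,
  (∀ F, Fc 𝒯 F → c F ∈ ri F) ∧ ∀ φ : E d ≃ᵢ E d, (∀ T : Set (E d), φ '' T ∈ 𝒯 ↔ T ∈ 𝒯) →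
    ∀ F, Fc 𝒯 F → Fc 𝒯 (φ '' F) ∧ c (φ '' F) = φ (c F)

/-- Folding towards a simplex. -/
def S_FOLD : Prop := ∀ (d : ℕ) (b : Fin (d + 1) → E d) (s : Fin (d + 1) → (E d ≃ᵢ E d)), 1 ≤ d →
  AffineIndependent ℝ b → (∀ i j, j ≠ i → s i (b j) = b j) → (∀ i, s i (b i) ≠ b i) →
  ∀ o ∈ interior (convexHull ℝ (range b)), ∀ y ∉ convexHull ℝ (range b),
    ∃ i, dist (s i y) o < dist y o

/-- `φ` is the reflection in the hyperplane `⟪n, x⟫ = c`. -/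
def IsRefl {d : ℕ} (φ : E d ≃ᵢ E d) (n : E d) (c : ℝ) : Prop :=
  ∀ x, φ x = x - (2 * (inner ℝ n x - c) / inner ℝ n n) • n

/-- Reflections: existence and orders of products. -/
def S_RFL : Prop := ∀ (d : ℕ),
  (∀ (n : E d) (c : ℝ), n ≠ 0 → ∃ φ : E d ≃ᵢ E d, IsRefl φ n c) ∧
  (∀ (φ ψ : E d ≃ᵢ E d) (n m : E d) (c e : ℝ), n ≠ 0 → m ≠ 0 → IsRefl φ n c → IsRefl ψ m e →
    (4 * (inner ℝ n m : ℝ) ^ 2 = inner ℝ n n * inner ℝ m m → (φ * ψ) ^ 3 = 1) ∧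
    (2 * (inner ℝ n m : ℝ) ^ 2 = inner ℝ n n * inner ℝ m m → (φ * ψ) ^ 4 = 1))

/-- Criterion of regularity. -/
def S_REG : Prop := ∀ (d : ℕ) (𝒯 : Set (Set (E d))), 1 ≤ d → LFC 𝒯 → ∀ (Φ : Flg 𝒯)
  (s : Fin (d + 1) → (E d ≃ᵢ E d)), (∀ i (T : Set (E d)), s i '' T ∈ 𝒯 ↔ T ∈ 𝒯) →
  (∀ i j, j ≠ i → s i '' Φ.F j = Φ.F j) → (∀ i, s i '' Φ.F i ≠ Φ.F i) → Regular 𝒯

/-- The cubic tiling. -/
def S_CUBE : Prop := ∀ d, 3 ≤ d → Model d (fun i => if i = 0 ∨ i + 1 = d then 4 else 3)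

/-- The tiling `{3,4,3,3}` by 24-cells. -/
def S_M3433 : Prop := Model 4 (fun i => if i = 1 then 4 else 3)

/-- The tiling `{3,3,4,3}` by 16-cells. -/
def S_M3343 : Prop := Model 4 (fun i => if i = 2 then 4 else 3)

/-- The theorem. -/
def S_MAIN : Prop := ∀ (d : ℕ) (𝒯 : Set (Set (E d))), 3 ≤ d → LFC 𝒯 → CombReg 𝒯 → Normal 𝒯 →
  ∃ 𝒯' : Set (Set (E d)), LFC 𝒯' ∧ Regular 𝒯' ∧ Nonempty (FP 𝒯 ≃o FP 𝒯')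

end TL
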